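import Pool.Agent.H29.TH.Key

/-!
Induction over the scales for sets of edges which matter together for the connection of two
points: two roots `o`, `z`. Groups without a root: four arms (weight `w`), groups with one root:
one arm (weight `v`), groups with both roots: no arm.
-/

set_option autoImplicit false
set_option linter.unusedSectionVars false

namespace Pool.Agent.H29.TG

open H974 Finset
open Pool.Agent.NH39.W (dm conn psi)
open Pool.Agent.H29.TH (Wf kcmp kstp kcmp_sub mem_kcmp self_kcmp kcmp_step kcmp_far kcmp_ind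
  dm_le_of' ds_le_dm' dm_mono')

/-- The hypotheses. -/
structure KS {E : Type} [DecidableEq E] (ds : E → E → ℕ) (V0 V : Finset E) (o z : E) (N : ℕ)
    (q : ℝ) (w v : ℕ → ℝ) (Ds : Finset E → Finset E → Prop) (C W : ℝ) : Prop where
  d0 : ∀ a, ds a a = 0
  dc : ∀ a b, ds a b = ds b a
  dt : ∀ a b c, ds a c ≤ ds a b + ds b c
  hN : 1 ≤ N
  q0 : 0 ≤ q
  q1 : q ≤ 1
  ww : Wf w w W
  wv : Wf w v W
  annw : ∀ x ∈ V0, ∀ (r D : ℕ), 1 ≤ r → r ≤ D → D ≤ N → ∃ Ch : Finset E → Prop,
      (∀ F F' : Finset E, (∀ e, r ≤ ds e x → ds e x ≤ D → (e ∈ F ↔ e ∈ F')) → (Ch F ↔ Ch F')) ∧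
      (∀ S F : Finset E, S ⊆ V0 → F ⊆ V → x ∈ S → o ∈ S → z ∈ S →
        (∀ y ∈ S, ds y x < r ∨ D < ds y x) → D < ds o x → D < ds z x → Ds S F → Ch F) ∧
      Pr (fun _ => q) V Ch ≤ C * (w D / w r)
  anno : ∀ (r D : ℕ), 1 ≤ r → r ≤ D → D ≤ N → ∃ Ch : Finset E → Prop,
      (∀ F F' : Finset E, (∀ e, r ≤ ds e o → ds e o ≤ D → (e ∈ F ↔ e ∈ F')) → (Ch F ↔ Ch F')) ∧
      (∀ S F : Finset E, S ⊆ V0 → F ⊆ V → o ∈ S → z ∈ S →
        (∀ y ∈ S, ds y o < r ∨ D < ds y o) → D < ds z o → Ds S F → Ch F) ∧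
      Pr (fun _ => q) V Ch ≤ C * (v D / v r)
  annz : ∀ (r D : ℕ), 1 ≤ r → r ≤ D → D ≤ N → ∃ Ch : Finset E → Prop,
      (∀ F F' : Finset E, (∀ e, r ≤ ds e z → ds e z ≤ D → (e ∈ F ↔ e ∈ F')) → (Ch F ↔ Ch F')) ∧
      (∀ S F : Finset E, S ⊆ V0 → F ⊆ V → o ∈ S → z ∈ S →
        (∀ y ∈ S, ds y z < r ∨ D < ds y z) → D < ds o z → Ds S F → Ch F) ∧
      Pr (fun _ => q) V Ch ≤ C * (v D / v r)
  hC : 1 ≤ C
  hW : 1 ≤ W

/-- The weight of a group. -/
noncomputable def uu {E : Type} [DecidableEq E] (o z : E) (w v : ℕ → ℝ) (S : Finset E) : ℕ → ℝ :=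
  if o ∈ S then (if z ∈ S then (fun _ => 1) else v) else (if z ∈ S then v else w)

/-- The factor of a group with both roots. -/
noncomputable def tt {E : Type} [DecidableEq E] (o z : E) (T0 : ℝ) (S : Finset E) : ℝ :=
  if o ∈ S ∧ z ∈ S then T0 else 1

/-- The roots. -/
def rt {E : Type} [DecidableEq E] (o z : E) (S : Finset E) (x : E) : Finset E :=
  if o ∈ S ∧ z ∈ S then {o, z} else {x}

/-- Admissible root of a group. -/
def Adm {E : Type} (o z : E) (S : Finset E) (x : E) : Prop :=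
  x ∈ S ∧ (o ∈ S → x = o) ∧ (o ∉ S → z ∈ S → x = z)

/-- There are an event and a forest on `S`. -/
def Gd {E : Type} [DecidableEq E] (ds : E → E → ℕ) (V0 V : Finset E) (o z : E) (N : ℕ) (q : ℝ)
    (w v : ℕ → ℝ) (Ds : Finset E → Finset E → Prop) (T0 a : ℝ) (t τ s k : ℕ)
    (S : Finset E) (x : E) : Prop :=
  ∃ (Ev : Finset E → Prop) (par : E → E) (rk : E → ℕ),
    (∀ F F' : Finset E, (∀ e, (∃ v ∈ S, ds e v ≤ t / 2) → (e ∈ F ↔ e ∈ F')) → (Ev F ↔ Ev F')) ∧
    (∀ S' : Finset E, S' ⊆ V0 → S ⊆ S' → o ∈ S' → z ∈ S' →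
      (∀ v ∈ S, ∀ w ∈ S' \ S, t < ds v w) → ∀ F : Finset E, F ⊆ V → Ds S' F → Ev F) ∧
    (∀ y ∈ S \ rt o z S x, par y ∈ S ∧ rk (par y) < rk y ∧ ds y (par y) ≤ τ) ∧
    Pr (fun _ => q) V Ev ≤ tt o z T0 S *
      (a ^ k * (∏ y ∈ S \ rt o z S x, psi w N (ds y (par y))) * psi (uu o z w v S) N s)

section
variable {E : Type} [DecidableEq E] {ds : E → E → ℕ} {V0 V : Finset E} {o z : E} {N : ℕ} {q : ℝ}
  {w v : ℕ → ℝ} {Ds : Finset E → Finset E → Prop} {C W T0 a : ℝ}

theorem KS.ok (H : KS ds V0 V o z N q w v Ds C W) : Ok (fun _ : E => q) :=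
  fun _ => ⟨H.q0, H.q1⟩

theorem wf_one (H : KS ds V0 V o z N q w v Ds C W) : Wf w (fun _ => (1:ℝ)) W where
  one := rfl
  pos := fun _ _ => one_pos
  mono := fun _ _ _ _ => le_rfl
  dbl := fun _ _ _ _ _ => by rw [mul_one]; exact H.hW
  rel := fun r s hr hs => by
    have h1 := H.ww.mono r s hr hs
    have h2 := H.ww.pos r hr
    have h3 := H.hW
    nlinarith

theorem KS.uw (H : KS ds V0 V o z N q w v Ds C W) (S : Finset E) : Wf w (uu o z w v S) W := by
  unfold uu
  split_ifs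
  · exact wf_one H
  · exact H.wv
  · exact H.wv
  · exact H.ww

theorem tt_nn (hT : 0 ≤ T0) (S : Finset E) : 0 ≤ tt o z T0 S := by
  unfold tt
  split_ifs
  · exact hT
  · exact zero_le_one

theorem rt_sub {S : Finset E} {x : E} (hx : x ∈ S) : rt o z S x ⊆ S := by
  unfold rt
  split_ifs with h
  · intro y hy
    rw [mem_insert, mem_singleton] at hy
    rcases hy with rfl | rfl
    · exact h.1
    · exact h.2
  · intro y hy
    rw [mem_singleton] at hy
    rw [hy]
    exact hx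

theorem dm_union3 (H : KS ds V0 V o z N q w v Ds C W) {U R : Finset E} {b u : E} {t : ℕ}
    (hu : u ∈ U) (hb : b ∈ R) (hbu : ds b u ≤ t + 1) :
    dm ds (U ∪ R) ≤ dm ds U + (t + 1) + dm ds R := by
  have key : ∀ v ∈ U, ∀ w ∈ R, ds v w ≤ dm ds U + (t + 1) + dm ds R := by
    intro v hv w hw
    have h1 := H.dt v u w
    have h2 := H.dt u b w
    have h3 := ds_le_dm' (ds := ds) hv hu
    have h4 := ds_le_dm' (ds := ds) hb hw
    rw [H.dc u b] at h2
    omega
  apply dm_le_of'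
  intro v hv w hw
  rw [mem_union] at hv hw
  rcases hv with hv | hv <;> rcases hw with hw | hw
  · exact (ds_le_dm' hv hw).trans (by omega)
  · exact key v hv w hw
  · rw [H.dc]
    exact key w hw v hv
  · exact (ds_le_dm' hv hw).trans (by omega)

theorem KS.prod_nn (H : KS ds V0 V o z N q w v Ds C W) (ha : 1 ≤ a) (k : ℕ) (S : Finset E)
    (f : E → ℕ) : 0 ≤ a ^ k * ∏ y ∈ S, psi w N (f y) :=
  mul_nonneg (pow_nonneg (by linarith) _) (Finset.prod_nonneg fun y _ => (H.ww.ppos _).le)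

/-- monotonicity -/
theorem gd_mono (H : KS ds V0 V o z N q w v Ds C W) (hT : 0 ≤ T0) {t τ τ' s s' k k' : ℕ}
    {S : Finset E} {x : E} (h : Gd ds V0 V o z N q w v Ds T0 a t τ s k S x) (hτ : τ ≤ τ')
    (hs : s' ≤ s) (hk : k ≤ k') (ha : 1 ≤ a) :
    Gd ds V0 V o z N q w v Ds T0 a t τ' s' k' S x := by
  obtain ⟨Ev, par, rk, h1, h2, h3, h4⟩ := h
  refine ⟨Ev, par, rk, h1, h2, fun y hy => ?_, h4.trans ?_⟩
  · obtain ⟨e1, e2, e3⟩ := h3 y hy
    exact ⟨e1, e2, e3.trans hτ⟩
  · refine mul_le_mul_of_nonneg_left ?_ (tt_nn hT S)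
    refine mul_le_mul ?_ ((H.uw S).panti hs) ((H.uw S).ppos _).le (H.prod_nn ha _ _ _)
    refine mul_le_mul_of_nonneg_right ?_ (Finset.prod_nonneg fun _ _ => (H.ww.ppos _).le)
    exact pow_le_pow_right₀ ha hk

/-- comparison of the bounds -/
theorem KS.step (H : KS ds V0 V o z N q w v Ds C W) {P T : ℝ} {k : ℕ} {S S1 : Finset E}
    {f : E → ℕ} {s s' : ℕ} (hT : 0 ≤ T) (ha : 1 ≤ a)
    (h : P ≤ T * (a ^ k * (∏ y ∈ S, psi w N (f y)) * psi (uu o z w v S1) N s))
    (h2 : psi (uu o z w v S1) N s ≤ a * psi (uu o z w v S1) N s') :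
    P ≤ T * (a ^ (k + 1) * (∏ y ∈ S, psi w N (f y)) * psi (uu o z w v S1) N s') := by
  refine h.trans (mul_le_mul_of_nonneg_left ?_ hT)
  calc a ^ k * (∏ y ∈ S, psi w N (f y)) * psi (uu o z w v S1) N s
      ≤ a ^ k * (∏ y ∈ S, psi w N (f y)) * (a * psi (uu o z w v S1) N s') :=
        mul_le_mul_of_nonneg_left h2 (H.prod_nn ha _ _ _)
    _ = _ := by rw [pow_succ]; ring

/-- all kinds of annuli, for the groups without both roots -/
theorem KS.ann (H : KS ds V0 V o z N q w v Ds C W) {S : Finset E} (hSV : S ⊆ V0) {x : E}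
    (hA : Adm o z S x) (hnb : ¬ (o ∈ S ∧ z ∈ S)) {r D : ℕ} (h1 : 1 ≤ r) (h2 : r ≤ D)
    (h3 : D ≤ N) :
    ∃ Ch : Finset E → Prop,
      (∀ F F' : Finset E, (∀ e, r ≤ ds e x → ds e x ≤ D → (e ∈ F ↔ e ∈ F')) → (Ch F ↔ Ch F')) ∧
      (∀ S' F : Finset E, S' ⊆ V0 → F ⊆ V → x ∈ S' → o ∈ S' → z ∈ S' →
        (∀ y ∈ S', ds y x < r ∨ D < ds y x) → (o ∈ S ∨ D < ds o x) → (z ∈ S ∨ D < ds z x) →
        Ds S' F → Ch F) ∧
      Pr (fun _ => q) V Ch ≤ C * (uu o z w v S D / uu o z w v S r) := by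
  obtain ⟨hx, hxo, hxz⟩ := hA
  by_cases ho : o ∈ S
  · have hz : z ∉ S := fun h => hnb ⟨ho, h⟩
    have hxo' := hxo ho
    subst hxo'
    obtain ⟨Ch, c1, c2, c3⟩ := H.anno r D h1 h2 h3
    refine ⟨Ch, c1, fun S' F a1 a2 _ a4 a5 a6 _ a8 a9 =>
      c2 S' F a1 a2 a4 a5 a6 (a8.resolve_left hz) a9, ?_⟩
    unfold uu
    rw [if_pos ho, if_neg hz]
    exact c3
  · by_cases hz : z ∈ S
    · have hxz' := hxz ho hz
      subst hxz'
      obtain ⟨Ch, c1, c2, c3⟩ := H.annz r D h1 h2 h3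
      refine ⟨Ch, c1, fun S' F a1 a2 _ a4 a5 a6 a7 _ a9 =>
        c2 S' F a1 a2 a4 a5 a6 (a7.resolve_left ho) a9, ?_⟩
      unfold uu
      rw [if_neg ho, if_pos hz]
      exact c3
    · obtain ⟨Ch, c1, c2, c3⟩ := H.annw x (hSV hx) r D h1 h2 h3
      refine ⟨Ch, c1, fun S' F a1 a2 a3 a4 a5 a6 a7 a8 a9 =>
        c2 S' F a1 a2 a3 a4 a5 a6 (a7.resolve_left ho) (a8.resolve_left hz) a9, ?_⟩
      unfold uu
      rw [if_neg ho, if_neg hz]
      exact c3

/-- BASE -/
theorem gd_base (H : KS ds V0 V o z N q w v Ds C W) (ha : C * W ^ 2 ≤ a)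
    (hT1 : ds o z = 0 → 1 ≤ T0) {t' : ℕ}
    {S : Finset E} {x : E} (hSV : S ⊆ V0) (hA : Adm o z S x)
    (ht' : t' ≤ N) (hall : ∀ y ∈ S, ds y x = 0) :
    Gd ds V0 V o z N q w v Ds T0 a t' 0 (max t' (dm ds S)) 1 S x := by
  have hC := H.hC
  have hW := H.hW
  have hu := H.uw S
  have hx := hA.1
  have hdm : dm ds S = 0 := by
    apply Nat.le_zero.mp
    apply dm_le_of'
    intro u hu v hv
    have h1 := H.dt u x v
    rw [H.dc x v, hall u hu, hall v hv] at h1
    exact h1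
  have ha1 : 1 ≤ a := by
    refine le_trans ?_ ha
    have : 1 ≤ W ^ 2 := by nlinarith
    nlinarith
  rw [hdm, max_eq_left (Nat.zero_le _)]
  have hprod : ∏ y ∈ S \ rt o z S x, psi w N (ds y ((fun _ => x) y)) = 1 := by
    refine Finset.prod_eq_one fun y hy => ?_
    simp only [hall y (mem_sdiff.1 hy).1]
    exact H.ww.pzero
  have hxr : x ∈ rt o z S x := by
    unfold rt
    split_ifs with h
    · rw [hA.2.1 h.1]
      exact mem_insert_self _ _
    · exact mem_singleton_self _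
  have htree : ∀ y ∈ S \ rt o z S x, (fun _ => x) y ∈ S ∧
      (fun y => if y = x then 0 else 1) ((fun _ => x) y) < (fun y => if y = x then 0 else 1) y ∧
      ds y ((fun _ => x) y) ≤ 0 := by
    intro y hy
    obtain ⟨hy1, hy2⟩ := mem_sdiff.1 hy
    have hyx : y ≠ x := fun h => hy2 (h ▸ hxr)
    refine ⟨hx, ?_, (hall y hy1).le⟩
    simp [hyx]
  by_cases hb : o ∈ S ∧ z ∈ S
  · -- both roots
    have hoz : ds o z = 0 := by
      have h1 := H.dt o x z
      rw [H.dc x z, hall o hb.1, hall z hb.2] at h1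
      omega
    refine ⟨fun _ => True, fun _ => x, fun y => if y = x then 0 else 1, fun _ _ _ => Iff.rfl,
      fun _ _ _ _ _ _ _ _ _ => trivial, htree, ?_⟩
    rw [hprod, pow_one, mul_one]
    have e1 : tt o z T0 S = T0 := by unfold tt; rw [if_pos hb]
    have e2 : psi (uu o z w v S) N t' = 1 := by
      unfold psi uu
      rw [if_pos hb.1, if_pos hb.2]
    rw [e1, e2, mul_one]
    refine (Pr_le_one H.ok _ _).trans ?_
    have := hT1 hoz
    nlinarith
  · have e1 : tt o z T0 S = 1 := by unfold tt; rw [if_neg hb]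
    by_cases hD : 1 ≤ t' / 2
    · obtain ⟨Ch, hloc, himp, hpr⟩ := H.ann hSV hA hb le_rfl hD (by omega : t' / 2 ≤ N)
      refine ⟨Ch, fun _ => x, fun y => if y = x then 0 else 1, ?_, ?_, htree, ?_⟩
      · intro F F' hFF
        exact hloc F F' fun e he he' => hFF e ⟨x, hx, he'⟩
      · intro S' hS'V hSS' hoS' hzS' hfar F hFV hF
        refine himp S' F hS'V hFV (hSS' hx) hoS' hzS' ?_ ?_ ?_ hF
        · intro y hy
          by_cases hyS : y ∈ S
          · left
            rw [hall y hyS]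
            exact Nat.one_pos
          · right
            have := hfar x hx y (mem_sdiff.mpr ⟨hy, hyS⟩)
            rw [H.dc]
            omega
        · by_cases ho : o ∈ S
          · exact Or.inl ho
          · right
            have := hfar x hx o (mem_sdiff.mpr ⟨hoS', ho⟩)
            rw [H.dc]
            omega
        · by_cases hz : z ∈ S
          · exact Or.inl hz
          · right
            have := hfar x hx z (mem_sdiff.mpr ⟨hzS', hz⟩)
            rw [H.dc]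
            omega
      · rw [hprod, pow_one, mul_one, e1, one_mul, hu.pmid (by omega) ht']
        rw [hu.one, div_one] at hpr
        have h1 : uu o z w v S (t' / 2) ≤ W * uu o z w v S t' := hu.dbl _ _ hD (by omega) (by omega)
        have h2 := hu.pos t' (by omega)
        calc Pr (fun _ => q) V Ch ≤ C * uu o z w v S (t' / 2) := hpr
          _ ≤ C * (W * uu o z w v S t') := mul_le_mul_of_nonneg_left h1 (by linarith)
          _ = (C * W) * uu o z w v S t' := by ring
          _ ≤ a * uu o z w v S t' := by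
              refine mul_le_mul_of_nonneg_right (le_trans ?_ ha) h2.le
              have : W ≤ W ^ 2 := by nlinarith
              exact mul_le_mul_of_nonneg_left this (by linarith)
    · refine ⟨fun _ => True, fun _ => x, fun y => if y = x then 0 else 1, fun _ _ _ => Iff.rfl,
        fun _ _ _ _ _ _ _ _ _ => trivial, htree, ?_⟩
      rw [hprod, pow_one, mul_one, e1, one_mul]
      have h1 : psi (uu o z w v S) N t' = 1 := by
        unfold psi
        rw [show max 1 (min t' N) = 1 by omega]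
        exact hu.one
      rw [h1, mul_one]
      exact (Pr_le_one H.ok _ _).trans ha1

/-- START -/
theorem gd_start (H : KS ds V0 V o z N q w v Ds C W) (hT : 0 ≤ T0) (ha1 : 1 ≤ a)
    (ha : C * W ^ 2 ≤ a) {t k : ℕ} {R : Finset E} {x : E}
    (h : Gd ds V0 V o z N q w v Ds T0 a t (t + 1) (max t (dm ds R)) k R x) :
    Gd ds V0 V o z N q w v Ds T0 a t (t + 1) (max (t + 1) (dm ds R)) (k + 1) R x := by
  obtain ⟨Ev, par, rk, h1, h2, h3, h4⟩ := h
  refine ⟨Ev, par, rk, h1, h2, h3, H.step (tt_nn hT R) ha1 h4 ?_⟩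
  have hC := H.hC
  have hW := H.hW
  refine ((H.uw R).pdbl H.hN (s' := max (t + 1) (dm ds R)) (by omega) (by omega)).trans ?_
  refine mul_le_mul_of_nonneg_right (le_trans ?_ ha) ((H.uw R).ppos _).le
  nlinarith

/-- the comparison of the products -/
theorem gd_merge_psi (H : KS ds V0 V o z N q w v Ds C W) {g : ℕ → ℝ} (hg : Wf w g W) {t : ℕ}
    {U R : Finset E} {b u : E}
    (hu : u ∈ U) (hb : b ∈ R) (hbu : ds b u ≤ t + 1) :
    psi g N (max (t + 1) (dm ds U)) * psi w N (max t (dm ds R)) ≤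
      W ^ 2 * (psi w N (ds b u) * psi g N (max (t + 1) (dm ds (U ∪ R)))) := by
  have hW := H.hW
  have h1 := dm_union3 H hu hb hbu
  have h2 : dm ds U ≤ dm ds (U ∪ R) := dm_mono' subset_union_left
  have h3 : dm ds R ≤ dm ds (U ∪ R) := dm_mono' subset_union_right
  obtain ⟨M, hM⟩ : ∃ M, M = max (t + 1) (dm ds U) := ⟨_, rfl⟩
  obtain ⟨M', hM'⟩ : ∃ M', M' = max (t + 1) (dm ds (U ∪ R)) := ⟨_, rfl⟩
  rw [← hM, ← hM']
  have p0 := hg.ppos (N := N) M
  have p1 := H.ww.ppos (N := N) (ds b u)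
  have p2 := hg.ppos (N := N) M'
  have p3 := H.ww.ppos (N := N) (max t (dm ds R))
  rcases le_total (dm ds R) M with hc | hc
  · have e1 : psi g N M ≤ W * psi g N M' := hg.pdbl H.hN (by omega) (by omega)
    have e2 : psi w N (max t (dm ds R)) ≤ psi w N t := H.ww.panti (le_max_left _ _)
    have e3 : psi w N t ≤ W * psi w N (t + 1) := H.ww.pdbl H.hN (by omega) (by omega)
    have e4 : psi w N (t + 1) ≤ psi w N (ds b u) := H.ww.panti hbu
    have e5 : psi w N (max t (dm ds R)) ≤ W * psi w N (ds b u) :=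
      (e2.trans e3).trans (mul_le_mul_of_nonneg_left e4 (by linarith))
    calc psi g N M * psi w N (max t (dm ds R)) ≤ (W * psi g N M') * (W * psi w N (ds b u)) :=
          mul_le_mul e1 e5 p3.le (by positivity)
      _ = _ := by ring
  · have e0 : max t (dm ds R) = dm ds R := max_eq_right (by omega)
    rw [e0]
    have e4 : psi w N M ≤ psi w N (ds b u) := H.ww.panti (by omega)
    have e5 : psi g N (dm ds R) ≤ W * psi g N M' := hg.pdbl H.hN (by omega) (by omega)
    have e6 := hg.prel (N := N) hc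
    have p4 := hg.ppos (N := N) (dm ds R)
    have p5 := H.ww.ppos (N := N) M
    calc psi g N M * psi w N (dm ds R) = psi w N (dm ds R) * psi g N M := mul_comm _ _
      _ ≤ W * (psi w N M * psi g N (dm ds R)) := e6
      _ ≤ W * (psi w N (ds b u) * (W * psi g N M')) :=
          mul_le_mul_of_nonneg_left (mul_le_mul e4 e5 p4.le p1.le) (by linarith)
      _ = _ := by ring

/-- the independence of the events of two groups -/
theorem gd_ind (H : KS ds V0 V o z N q w v Ds C W) {t : ℕ} {U R : Finset E}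
    {Ev Ev' : Finset E → Prop} (hfar : ∀ v ∈ U, ∀ w ∈ R, t < ds v w)
    (g1 : ∀ F F' : Finset E, (∀ e, (∃ v ∈ U, ds e v ≤ t / 2) → (e ∈ F ↔ e ∈ F')) →
      (Ev F ↔ Ev F'))
    (g1' : ∀ F F' : Finset E, (∀ e, (∃ v ∈ R, ds e v ≤ t / 2) → (e ∈ F ↔ e ∈ F')) →
      (Ev' F ↔ Ev' F')) :
    Pr (fun _ => q) V (fun F => Ev F ∧ Ev' F) =
        Pr (fun _ => q) V Ev * Pr (fun _ => q) V Ev' := by
  classical
  refine Pr_indep (S := V.filter fun e => ∃ v ∈ U, ds e v ≤ t / 2)
    (T := V.filter fun e => ∃ v ∈ R, ds e v ≤ t / 2) (filter_subset _ _)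
    (filter_subset _ _) ?_ ?_ ?_
  · rw [Finset.disjoint_left]
    intro e he1 he2
    obtain ⟨v, hv, h1⟩ := (mem_filter.mp he1).2
    obtain ⟨y, hy, h2⟩ := (mem_filter.mp he2).2
    have h3 := hfar v hv y hy
    have h4 := H.dt v e y
    rw [H.dc v e] at h4
    omega
  · intro F hF
    refine g1 _ _ fun e he => ?_
    rw [mem_inter, mem_filter]
    exact ⟨fun h => ⟨h, hF h, he⟩, fun h => h.1⟩
  · intro F hF
    refine g1' _ _ fun e he => ?_
    rw [mem_inter, mem_filter]
    exact ⟨fun h => ⟨h, hF h, he⟩, fun h => h.1⟩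

/-- the implications for two groups -/
theorem gd_imp (H : KS ds V0 V o z N q w v Ds C W) {t : ℕ} {U R : Finset E}
    {Ev Ev' : Finset E → Prop} (hfar : ∀ v ∈ U, ∀ w ∈ R, t < ds v w)
    (g2 : ∀ S' : Finset E, S' ⊆ V0 → U ⊆ S' → o ∈ S' → z ∈ S' →
      (∀ v ∈ U, ∀ w ∈ S' \ U, t < ds v w) → ∀ F : Finset E, F ⊆ V → Ds S' F → Ev F)
    (g2' : ∀ S' : Finset E, S' ⊆ V0 → R ⊆ S' → o ∈ S' → z ∈ S' →
      (∀ v ∈ R, ∀ w ∈ S' \ R, t < ds v w) → ∀ F : Finset E, F ⊆ V → Ds S' F → Ev' F) :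
    ∀ S' : Finset E, S' ⊆ V0 → U ∪ R ⊆ S' → o ∈ S' → z ∈ S' →
      (∀ v ∈ U ∪ R, ∀ w ∈ S' \ (U ∪ R), t < ds v w) → ∀ F : Finset E, F ⊆ V → Ds S' F →
      Ev F ∧ Ev' F := by
  intro S' hS'V hSS' hoS' hzS' hfar' F hFV hF
  constructor
  · refine g2 S' hS'V (subset_union_left.trans hSS') hoS' hzS' (fun v hv y hy => ?_) F hFV hF
    obtain ⟨hy1, hy2⟩ := mem_sdiff.mp hy
    by_cases hyR : y ∈ R
    · exact hfar v hv y hyR
    · refine hfar' v (mem_union_left _ hv) y (mem_sdiff.mpr ⟨hy1, ?_⟩)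
      rw [mem_union, not_or]
      exact ⟨hy2, hyR⟩
  · refine g2' S' hS'V (subset_union_right.trans hSS') hoS' hzS' (fun v hv y hy => ?_) F hFV hF
    obtain ⟨hy1, hy2⟩ := mem_sdiff.mp hy
    by_cases hyU : y ∈ U
    · rw [H.dc]
      exact hfar y hyU v hv
    · refine hfar' v (mem_union_right _ hv) y (mem_sdiff.mpr ⟨hy1, ?_⟩)
      rw [mem_union, not_or]
      exact ⟨hyU, hy2⟩

/-- MERGE with a group without a root -/
theorem gd_merge (H : KS ds V0 V o z N q w v Ds C W) (hT : 0 ≤ T0) (ha1 : 1 ≤ a)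
    (ha : C * W ^ 2 ≤ a)
    {t k k' : ℕ} {U R : Finset E} {x b u : E} (hoR : o ∉ R) (hzR : z ∉ R)
    (hx : x ∈ U) (hu : u ∈ U) (hb : b ∈ R)
    (hbu : ds b u ≤ t + 1) (hfar : ∀ v ∈ U, ∀ w ∈ R, t < ds v w)
    (hU : Gd ds V0 V o z N q w v Ds T0 a t (t + 1) (max (t + 1) (dm ds U)) k U x)
    (hR : Gd ds V0 V o z N q w v Ds T0 a t (t + 1) (max t (dm ds R)) k' R b) :
    Gd ds V0 V o z N q w v Ds T0 a t (t + 1) (max (t + 1) (dm ds (U ∪ R))) (k + k' + 1)
      (U ∪ R) x := by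
  classical
  have hC := H.hC
  have hW := H.hW
  obtain ⟨Ev, par, rk, g1, g2, g3, g4⟩ := hU
  obtain ⟨Ev', par', rk', g1', g2', g3', g4'⟩ := hR
  have huR : uu o z w v R = w := by unfold uu; rw [if_neg hoR, if_neg hzR]
  have htR : tt o z T0 R = 1 := by unfold tt; rw [if_neg (fun h => hoR h.1)]
  have hrR : rt o z R b = {b} := by unfold rt; rw [if_neg (fun h => hoR h.1)]
  have ho : o ∈ U ∪ R ↔ o ∈ U := by
    rw [mem_union]; exact ⟨fun h => h.resolve_right hoR, Or.inl⟩
  have hz : z ∈ U ∪ R ↔ z ∈ U := by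
    rw [mem_union]; exact ⟨fun h => h.resolve_right hzR, Or.inl⟩
  have huU : uu o z w v (U ∪ R) = uu o z w v U := by
    unfold uu
    simp only [ho, hz]
  have htU : tt o z T0 (U ∪ R) = tt o z T0 U := by
    unfold tt
    simp only [ho, hz]
  have hrU : rt o z (U ∪ R) x = rt o z U x := by
    unfold rt
    simp only [ho, hz]
  have hrs := rt_sub (o := o) (z := z) hx
  rw [huR, htR, one_mul, hrR] at g4'
  rw [hrR] at g3'
  have hUR : ∀ v ∈ R, v ∉ U := by
    intro v hv hvU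
    have := hfar v hvU v hv
    rw [H.d0] at this
    omega
  have hdisj : Disjoint U R := Finset.disjoint_right.mpr hUR
  have hbU : b ∉ U := hUR b hb
  refine ⟨fun F => Ev F ∧ Ev' F, fun y => if y ∈ U then par y else if y = b then u else par' y,
    fun y => if y ∈ U then rk y else rk u + 1 + rk' y, ?_, gd_imp H hfar g2 g2', ?_, ?_⟩
  · intro F F' hFF
    refine and_congr (g1 F F' fun e he => hFF e ?_) (g1' F F' fun e he => hFF e ?_)
    · obtain ⟨v, hv, h⟩ := he
      exact ⟨v, mem_union_left _ hv, h⟩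
    · obtain ⟨v, hv, h⟩ := he
      exact ⟨v, mem_union_right _ hv, h⟩
  · rw [hrU]
    intro y hy
    obtain ⟨hy, hyx⟩ := mem_sdiff.1 hy
    by_cases hyU : y ∈ U
    · obtain ⟨e1, e2, e3⟩ := g3 y (mem_sdiff.2 ⟨hyU, hyx⟩)
      simp only [if_pos hyU, if_pos e1]
      exact ⟨mem_union_left _ e1, e2, e3⟩
    · have hyR : y ∈ R := (mem_union.mp hy).resolve_left hyU
      by_cases hyb : y = b
      · simp only [if_neg hyU, if_pos hyb, if_pos hu]
        exact ⟨mem_union_left _ hu, by omega, by rw [hyb]; exact hbu⟩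
      · obtain ⟨e1, e2, e3⟩ := g3' y (mem_sdiff.2 ⟨hyR, fun h => hyb (mem_singleton.1 h)⟩)
        simp only [if_neg hyU, if_neg hyb, if_neg (hUR _ e1)]
        exact ⟨mem_union_right _ e1, by omega, e3⟩
  · rw [gd_ind H hfar g1 g1', huU, htU, hrU]
    have hprod : ∏ y ∈ (U ∪ R) \ rt o z U x,
        psi w N (ds y (if y ∈ U then par y else if y = b then u else par' y)) =
        (∏ y ∈ U \ rt o z U x, psi w N (ds y (par y))) *
          (psi w N (ds b u) * ∏ y ∈ R \ {b}, psi w N (ds y (par' y))) := by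
      have e1 : (U ∪ R) \ rt o z U x = (U \ rt o z U x) ∪ R := by
        ext y
        simp only [mem_sdiff, mem_union]
        constructor
        · rintro ⟨h2 | h2, h1⟩
          · exact Or.inl ⟨h2, h1⟩
          · exact Or.inr h2
        · rintro (⟨h1, h2⟩ | h2)
          · exact ⟨Or.inl h1, h2⟩
          · exact ⟨Or.inr h2, fun h => hUR y h2 (hrs h)⟩
      rw [e1, Finset.prod_union (hdisj.mono_left sdiff_subset)]
      congr 1
      · refine Finset.prod_congr rfl fun y hy => ?_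
        rw [if_pos (mem_sdiff.1 hy).1]
      · rw [← Finset.mul_prod_erase R _ hb, Finset.sdiff_singleton_eq_erase]
        congr 1
        · rw [if_neg hbU, if_pos rfl]
        · refine Finset.prod_congr rfl fun y hy => ?_
          rw [mem_erase] at hy
          rw [if_neg (hUR y hy.2), if_neg hy.1]
    rw [hprod]
    have hm := gd_merge_psi H (H.uw U) hu hb hbu
    have n1 := H.prod_nn ha1 k (U \ rt o z U x) fun y => ds y (par y)
    have n2 := H.prod_nn ha1 k' (R \ {b}) fun y => ds y (par' y)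
    have n3 := H.ww.ppos (N := N) (ds b u)
    have n4 := (H.uw U).ppos (N := N) (max (t + 1) (dm ds (U ∪ R)))
    have n5 := tt_nn (o := o) (z := z) hT U
    obtain ⟨P1, hP1⟩ : ∃ P1, P1 = ∏ y ∈ U \ rt o z U x, psi w N (ds y (par y)) := ⟨_, rfl⟩
    obtain ⟨P2, hP2⟩ : ∃ P2, P2 = ∏ y ∈ R \ {b}, psi w N (ds y (par' y)) := ⟨_, rfl⟩
    rw [← hP1] at g4 n1 ⊢
    rw [← hP2] at g4' n2 ⊢
    obtain ⟨T, hTT⟩ : ∃ T, T = tt o z T0 U := ⟨_, rfl⟩
    rw [← hTT] at g4 n5 ⊢
    have h5 : W ^ 2 ≤ a := le_trans (by nlinarith) ha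
    have q1 := (H.uw U).ppos (N := N) (max (t + 1) (dm ds U))
    have q2 := H.ww.ppos (N := N) (max t (dm ds R))
    calc Pr (fun _ => q) V Ev * Pr (fun _ => q) V Ev'
        ≤ (T * (a ^ k * P1 * psi (uu o z w v U) N (max (t + 1) (dm ds U)))) *
          (a ^ k' * P2 * psi w N (max t (dm ds R))) :=
          mul_le_mul g4 g4' (Pr_nonneg H.ok _ _) (mul_nonneg n5 (mul_nonneg n1 q1.le))
      _ = T * ((a ^ k * P1) * (a ^ k' * P2)) *
          (psi (uu o z w v U) N (max (t + 1) (dm ds U)) * psi w N (max t (dm ds R))) := by ring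
      _ ≤ T * ((a ^ k * P1) * (a ^ k' * P2)) *
          (W ^ 2 * (psi w N (ds b u) * psi (uu o z w v U) N (max (t + 1) (dm ds (U ∪ R))))) :=
          mul_le_mul_of_nonneg_left hm (mul_nonneg n5 (mul_nonneg n1 n2))
      _ ≤ T * ((a ^ k * P1) * (a ^ k' * P2)) *
          (a * (psi w N (ds b u) * psi (uu o z w v U) N (max (t + 1) (dm ds (U ∪ R))))) := by
          refine mul_le_mul_of_nonneg_left ?_ (mul_nonneg n5 (mul_nonneg n1 n2))
          exact mul_le_mul_of_nonneg_right h5 (by positivity)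
      _ = _ := by rw [pow_succ, pow_add]; ring

/-- MERGE of the groups of the two roots -/
theorem gd_merge2 (H : KS ds V0 V o z N q w v Ds C W) (ha1 : 1 ≤ a)
    (ha : C * W ^ 2 ≤ a)
    {t k k' : ℕ} {U R : Finset E} (hoU : o ∈ U) (hzU : z ∉ U) (hoR : o ∉ R) (hzR : z ∈ R)
    (hfar : ∀ v ∈ U, ∀ w ∈ R, t < ds v w)
    (hT0 : psi v N (t + 1) ^ 2 ≤ T0)
    (hU : Gd ds V0 V o z N q w v Ds T0 a t (t + 1) (max (t + 1) (dm ds U)) k U o)
    (hR : Gd ds V0 V o z N q w v Ds T0 a t (t + 1) (max t (dm ds R)) k' R z) (s : ℕ) :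
    Gd ds V0 V o z N q w v Ds T0 a t (t + 1) s (k + k' + 1) (U ∪ R) o := by
  classical
  have hC := H.hC
  have hW := H.hW
  obtain ⟨Ev, par, rk, g1, g2, g3, g4⟩ := hU
  obtain ⟨Ev', par', rk', g1', g2', g3', g4'⟩ := hR
  have huR : uu o z w v R = v := by unfold uu; rw [if_neg hoR, if_pos hzR]
  have htR : tt o z T0 R = 1 := by unfold tt; rw [if_neg (fun h => hoR h.1)]
  have hrR : rt o z R z = {z} := by unfold rt; rw [if_neg (fun h => hoR h.1)]
  have huU : uu o z w v U = v := by unfold uu; rw [if_pos hoU, if_neg hzU]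
  have htU : tt o z T0 U = 1 := by unfold tt; rw [if_neg (fun h => hzU h.2)]
  have hrU : rt o z U o = {o} := by unfold rt; rw [if_neg (fun h => hzU h.2)]
  have hob : o ∈ U ∪ R := mem_union_left _ hoU
  have hzb : z ∈ U ∪ R := mem_union_right _ hzR
  have hu2 : uu o z w v (U ∪ R) = fun _ => 1 := by unfold uu; rw [if_pos hob, if_pos hzb]
  have ht2 : tt o z T0 (U ∪ R) = T0 := by unfold tt; rw [if_pos ⟨hob, hzb⟩]
  have hr2 : rt o z (U ∪ R) o = {o, z} := by unfold rt; rw [if_pos ⟨hob, hzb⟩]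
  rw [huR, htR, one_mul, hrR] at g4'
  rw [hrR] at g3'
  rw [huU, htU, one_mul, hrU] at g4
  rw [hrU] at g3
  have hUR : ∀ v ∈ R, v ∉ U := by
    intro v hv hvU
    have := hfar v hvU v hv
    rw [H.d0] at this
    omega
  have hdisj : Disjoint U R := Finset.disjoint_right.mpr hUR
  refine ⟨fun F => Ev F ∧ Ev' F, fun y => if y ∈ U then par y else par' y,
    fun y => if y ∈ U then rk y else rk' y, ?_, gd_imp H hfar g2 g2', ?_, ?_⟩
  · intro F F' hFF
    refine and_congr (g1 F F' fun e he => hFF e ?_) (g1' F F' fun e he => hFF e ?_)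
    · obtain ⟨v, hv, h⟩ := he
      exact ⟨v, mem_union_left _ hv, h⟩
    · obtain ⟨v, hv, h⟩ := he
      exact ⟨v, mem_union_right _ hv, h⟩
  · rw [hr2]
    intro y hy
    obtain ⟨hy, hyx⟩ := mem_sdiff.1 hy
    rw [mem_insert, mem_singleton, not_or] at hyx
    by_cases hyU : y ∈ U
    · obtain ⟨e1, e2, e3⟩ := g3 y (mem_sdiff.2 ⟨hyU, fun h => hyx.1 (mem_singleton.1 h)⟩)
      simp only [if_pos hyU, if_pos e1]
      exact ⟨mem_union_left _ e1, e2, e3⟩
    · have hyR : y ∈ R := (mem_union.mp hy).resolve_left hyU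
      obtain ⟨e1, e2, e3⟩ := g3' y (mem_sdiff.2 ⟨hyR, fun h => hyx.2 (mem_singleton.1 h)⟩)
      simp only [if_neg hyU, if_neg (hUR _ e1)]
      exact ⟨mem_union_right _ e1, e2, e3⟩
  · rw [gd_ind H hfar g1 g1', hu2, ht2, hr2]
    have hprod : ∏ y ∈ (U ∪ R) \ {o, z}, psi w N (ds y (if y ∈ U then par y else par' y)) =
        (∏ y ∈ U \ {o}, psi w N (ds y (par y))) * ∏ y ∈ R \ {z}, psi w N (ds y (par' y)) := by
      have e1 : (U ∪ R) \ {o, z} = (U \ {o}) ∪ (R \ {z}) := by
        ext y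
        simp only [mem_sdiff, mem_union, mem_insert, mem_singleton, not_or]
        constructor
        · rintro ⟨h2 | h2, h1⟩
          · exact Or.inl ⟨h2, h1.1⟩
          · exact Or.inr ⟨h2, h1.2⟩
        · rintro (⟨h1, h2⟩ | ⟨h1, h2⟩)
          · exact ⟨Or.inl h1, h2, fun h => hzU (h ▸ h1)⟩
          · exact ⟨Or.inr h1, fun h => hoR (h ▸ h1), h2⟩
      rw [e1, Finset.prod_union (hdisj.mono sdiff_subset sdiff_subset)]
      congr 1
      · refine Finset.prod_congr rfl fun y hy => ?_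
        rw [if_pos (mem_sdiff.1 hy).1]
      · refine Finset.prod_congr rfl fun y hy => ?_
        rw [if_neg (hUR y (mem_sdiff.1 hy).1)]
    rw [hprod]
    have n1 := H.prod_nn ha1 k (U \ {o}) fun y => ds y (par y)
    have n2 := H.prod_nn ha1 k' (R \ {z}) fun y => ds y (par' y)
    obtain ⟨P1, hP1⟩ : ∃ P1, P1 = ∏ y ∈ U \ {o}, psi w N (ds y (par y)) := ⟨_, rfl⟩
    obtain ⟨P2, hP2⟩ : ∃ P2, P2 = ∏ y ∈ R \ {z}, psi w N (ds y (par' y)) := ⟨_, rfl⟩
    rw [← hP1] at g4 n1 ⊢
    rw [← hP2] at g4' n2 ⊢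
    have q1 := H.wv.ppos (N := N) (max (t + 1) (dm ds U))
    have q2 := H.wv.ppos (N := N) (max t (dm ds R))
    have q3 := H.wv.ppos (N := N) (t + 1)
    have e1 : psi v N (max (t + 1) (dm ds U)) ≤ psi v N (t + 1) := H.wv.panti (le_max_left _ _)
    have e2 : psi v N (max t (dm ds R)) ≤ psi v N t := H.wv.panti (le_max_left _ _)
    have e3 : psi v N t ≤ W * psi v N (t + 1) := H.wv.pdbl H.hN (by omega) (by omega)
    have e4 : psi v N (max (t + 1) (dm ds U)) * psi v N (max t (dm ds R)) ≤ a * T0 := by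
      calc psi v N (max (t + 1) (dm ds U)) * psi v N (max t (dm ds R))
          ≤ psi v N (t + 1) * (W * psi v N (t + 1)) :=
            mul_le_mul e1 (e2.trans e3) q2.le q3.le
        _ = W * psi v N (t + 1) ^ 2 := by ring
        _ ≤ a * T0 := by
            apply mul_le_mul _ hT0 (by positivity) (by linarith)
            refine le_trans ?_ ha
            have : W ≤ W ^ 2 := by nlinarith
            nlinarith
    have e5 : psi (fun _ => (1:ℝ)) N s = 1 := rfl
    rw [e5, mul_one]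
    calc Pr (fun _ => q) V Ev * Pr (fun _ => q) V Ev'
        ≤ (a ^ k * P1 * psi v N (max (t + 1) (dm ds U))) *
          (a ^ k' * P2 * psi v N (max t (dm ds R))) :=
          mul_le_mul g4 g4' (Pr_nonneg H.ok _ _) (mul_nonneg n1 q1.le)
      _ = ((a ^ k * P1) * (a ^ k' * P2)) *
          (psi v N (max (t + 1) (dm ds U)) * psi v N (max t (dm ds R))) := by ring
      _ ≤ ((a ^ k * P1) * (a ^ k' * P2)) * (a * T0) :=
          mul_le_mul_of_nonneg_left e4 (mul_nonneg n1 n2)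
      _ = _ := by rw [pow_succ, pow_add]; ring

/-- OUT -/
theorem gd_out (H : KS ds V0 V o z N q w v Ds C W) (hT : 0 ≤ T0) (ha1 : 1 ≤ a)
    (ha : C * W ^ 2 ≤ a)
    {t t' k : ℕ} {S : Finset E} {x : E} (hSV : S ⊆ V0) (hA : Adm o z S x)
    (htt : t + 1 ≤ t') (ht' : t' ≤ N)
    (hG : Gd ds V0 V o z N q w v Ds T0 a t (t + 1) (max (t + 1) (dm ds S)) k S x) :
    Gd ds V0 V o z N q w v Ds T0 a t' (t + 1) (max t' (dm ds S)) (k + 1) S x := by
  classical
  have hC := H.hC
  have hW := H.hW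
  have hu := H.uw S
  have hx := hA.1
  have hWa : W ≤ a := le_trans (by nlinarith) ha
  obtain ⟨Ev, par, rk, g1, g2, g3, g4⟩ := hG
  obtain ⟨s, hs⟩ : ∃ s, s = max (t + 1) (dm ds S) := ⟨_, rfl⟩
  obtain ⟨r, hr⟩ : ∃ r, r = dm ds S + t / 2 + 1 := ⟨_, rfl⟩
  obtain ⟨D, hD⟩ : ∃ D, D = t' / 2 := ⟨_, rfl⟩
  rw [← hs] at g4
  have hloc : ∀ F F' : Finset E, (∀ e, (∃ v ∈ S, ds e v ≤ t' / 2) → (e ∈ F ↔ e ∈ F')) →
      (Ev F ↔ Ev F') := by
    intro F F' hFF
    refine g1 F F' fun e he => hFF e ?_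
    obtain ⟨v, hv, h⟩ := he
    exact ⟨v, hv, by omega⟩
  have himp : ∀ S' : Finset E, S' ⊆ V0 → S ⊆ S' → o ∈ S' → z ∈ S' →
      (∀ v ∈ S, ∀ w ∈ S' \ S, t' < ds v w) → ∀ F : Finset E, F ⊆ V → Ds S' F → Ev F := by
    intro S' hS'V hSS' hoS' hzS' hfar F hFV hF
    refine g2 S' hS'V hSS' hoS' hzS' (fun v hv y hy => ?_) F hFV hF
    have := hfar v hv y hy
    omega
  by_cases hb : o ∈ S ∧ z ∈ S
  · refine ⟨Ev, par, rk, hloc, himp, g3, H.step (tt_nn hT S) ha1 g4 ?_⟩
    have e : uu o z w v S = fun _ => 1 := by unfold uu; rw [if_pos hb.1, if_pos hb.2]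
    rw [e]
    show (1:ℝ) ≤ a * 1
    linarith
  rcases le_or_gt r D with hrD | hrD
  · obtain ⟨Ch, c1, c2, c3⟩ := H.ann hSV hA hb (by omega : 1 ≤ r) hrD (by omega)
    refine ⟨fun F => Ev F ∧ Ch F, par, rk, ?_, ?_, g3, ?_⟩
    · intro F F' hFF
      exact and_congr (hloc F F' hFF) (c1 F F' fun e _ he' => hFF e ⟨x, hx, by omega⟩)
    · intro S' hS'V hSS' hoS' hzS' hfar F hFV hF
      refine ⟨himp S' hS'V hSS' hoS' hzS' hfar F hFV hF,
        c2 S' F hS'V hFV (hSS' hx) hoS' hzS' ?_ ?_ ?_ hF⟩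
      · intro y hy
        by_cases hyS : y ∈ S
        · left
          have := ds_le_dm' (ds := ds) hyS hx
          omega
        · right
          have := hfar x hx y (mem_sdiff.mpr ⟨hy, hyS⟩)
          rw [H.dc]
          omega
      · by_cases ho : o ∈ S
        · exact Or.inl ho
        · right
          have := hfar x hx o (mem_sdiff.mpr ⟨hoS', ho⟩)
          rw [H.dc]
          omega
      · by_cases hz : z ∈ S
        · exact Or.inl hz
        · right
          have := hfar x hx z (mem_sdiff.mpr ⟨hzS', hz⟩)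
          rw [H.dc]
          omega
    · have hind : Pr (fun _ => q) V (fun F => Ev F ∧ Ch F) =
          Pr (fun _ => q) V Ev * Pr (fun _ => q) V Ch := by
        refine Pr_indep (S := V.filter fun e => ∃ v ∈ S, ds e v ≤ t / 2)
          (T := V.filter fun e => r ≤ ds e x ∧ ds e x ≤ D) (filter_subset _ _)
          (filter_subset _ _) ?_ ?_ ?_
        · rw [Finset.disjoint_left]
          intro e he1 he2
          obtain ⟨v, hv, h1⟩ := (mem_filter.mp he1).2
          have h2 := (mem_filter.mp he2).2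
          have h3 := H.dt e v x
          have h4 := ds_le_dm' (ds := ds) hv hx
          omega
        · intro F hF
          refine g1 _ _ fun e he => ?_
          rw [mem_inter, mem_filter]
          exact ⟨fun h => ⟨h, hF h, he⟩, fun h => h.1⟩
        · intro F hF
          refine c1 _ _ fun e he he' => ?_
          rw [mem_inter, mem_filter]
          exact ⟨fun h => ⟨h, hF h, he, he'⟩, fun h => h.1⟩
      have htS : tt o z T0 S = 1 := by unfold tt; rw [if_neg hb]
      rw [htS, one_mul] at g4 ⊢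
      rw [hind]
      have hmax : max t' (dm ds S) = t' := by omega
      rw [hmax, hu.pmid (by omega) ht']
      rw [hu.pmid (s := s) (by omega) (by omega)] at g4
      obtain ⟨zz, hz⟩ : ∃ zz, zz = uu o z w v S := ⟨_, rfl⟩
      rw [← hz] at g4 c3 hu ⊢
      have zr := hu.pos r (by omega)
      have zs := hu.pos s (by omega)
      have zD := hu.pos D (by omega)
      have zt := hu.pos t' (by omega)
      have u1 : zz s ≤ W * zz r := by
        rcases le_total s r with h | h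
        · exact hu.dbl s r (by omega) h (by omega)
        · refine (hu.mono r s (by omega) h).trans ?_
          nlinarith
      have u2 : zz D ≤ W * zz t' := hu.dbl D t' (by omega) (by omega) (by omega)
      have u3 : zz s * (C * (zz D / zz r)) ≤ a * zz t' := by
        calc zz s * (C * (zz D / zz r)) ≤ (W * zz r) * (C * (zz D / zz r)) :=
              mul_le_mul_of_nonneg_right u1 (by positivity)
          _ = C * W * zz D := by field_simp
          _ ≤ C * W * (W * zz t') := mul_le_mul_of_nonneg_left u2 (by positivity)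
          _ = (C * W ^ 2) * zz t' := by ring
          _ ≤ a * zz t' := mul_le_mul_of_nonneg_right ha zt.le
      have hprod := H.prod_nn ha1 k (S \ rt o z S x) fun y => ds y (par y)
      calc Pr (fun _ => q) V Ev * Pr (fun _ => q) V Ch
          ≤ (a ^ k * (∏ y ∈ S \ rt o z S x, psi w N (ds y (par y))) * zz s) *
            (C * (zz D / zz r)) :=
            mul_le_mul g4 c3 (Pr_nonneg H.ok _ _) (mul_nonneg hprod zs.le)
        _ = a ^ k * (∏ y ∈ S \ rt o z S x, psi w N (ds y (par y))) *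
            (zz s * (C * (zz D / zz r))) := by ring
        _ ≤ a ^ k * (∏ y ∈ S \ rt o z S x, psi w N (ds y (par y))) * (a * zz t') :=
            mul_le_mul_of_nonneg_left u3 hprod
        _ = _ := by rw [pow_succ]; ring
  · refine ⟨Ev, par, rk, hloc, himp, g3, H.step (tt_nn hT S) ha1 g4 ?_⟩
    refine (hu.pdbl H.hN (s' := max t' (dm ds S)) (by omega) (by omega)).trans ?_
    exact mul_le_mul_of_nonneg_right hWa (hu.ppos _).le

theorem kcmp_conn3 (H : KS ds V0 V o z N q w v Ds C W) {t : ℕ} {S : Finset E} {y : E}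
    (hy : y ∈ S) : conn ds t (kcmp ds t S y) := by
  intro A hA hne hne'
  by_contra hcon
  push Not at hcon
  by_cases hyA : y ∈ A
  · obtain ⟨z, hz⟩ := hne'
    rw [Finset.mem_sdiff] at hz
    refine hz.2 (kcmp_ind hy (P := fun z => z ∈ A) hyA ?_ z hz.1)
    intro u hu v hv huA huv
    by_contra hvA
    have := hcon u huA v (Finset.mem_sdiff.2 ⟨hv, hvA⟩)
    omega
  · obtain ⟨z, hz⟩ := hne
    refine kcmp_ind hy (P := fun z => z ∉ A) hyA ?_ z (hA hz) hz
    intro u hu v hv huA huv hvA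
    have := hcon v hvA u (Finset.mem_sdiff.2 ⟨hu, huA⟩)
    rw [H.dc] at this
    omega

/-- a `0`-connected set lies at one position -/
theorem conn_zero3 (H : KS ds V0 V o z N q w v Ds C W) {S : Finset E} {x : E} (hx : x ∈ S)
    (hc : conn ds 0 S) : ∀ y ∈ S, ds y x = 0 := by
  by_contra hcon
  push Not at hcon
  obtain ⟨z, hz, hzx⟩ := hcon
  obtain ⟨u, hu, v, hv, huv⟩ := hc (S.filter (fun y => ds y x = 0)) (Finset.filter_subset _ _)
    ⟨x, Finset.mem_filter.2 ⟨hx, H.d0 x⟩⟩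
    ⟨z, Finset.mem_sdiff.2 ⟨hz, fun h => hzx (Finset.mem_filter.1 h).2⟩⟩
  rw [Finset.mem_filter] at hu
  rw [Finset.mem_sdiff, Finset.mem_filter] at hv
  refine hv.2 ⟨hv.1, ?_⟩
  have h1 := H.dt v u x
  rw [H.dc v u] at h1
  omega

/-- the diameter of a connected set -/
theorem conn_diam (H : KS ds V0 V o z N q w v Ds C W) {t : ℕ} {S : Finset E}
    (hc : conn ds t S) {x : E} (hx : x ∈ S) : ∀ y ∈ S, ds x y ≤ S.card * t := by
  have key : ∀ j : ℕ, j + 1 ≤ S.card → ∃ A ⊆ S, A.card = j + 1 ∧ x ∈ A ∧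
      ∀ y ∈ A, ds x y ≤ j * t := by
    intro j
    induction j with
    | zero =>
      intro _
      refine ⟨{x}, by simpa using hx, by simp, by simp, ?_⟩
      intro y hy
      rw [mem_singleton] at hy
      rw [hy, H.d0]
      exact Nat.zero_le _
    | succ j ih =>
      intro hj
      obtain ⟨A, hAS, hAc, hxA, hAd⟩ := ih (by omega)
      have hne : (S \ A).Nonempty := by
        rw [← Finset.card_pos, Finset.card_sdiff_of_subset hAS]
        omega
      obtain ⟨u, hu, b, hb, hub⟩ := hc A hAS ⟨x, hxA⟩ hne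
      obtain ⟨hbS, hbA⟩ := mem_sdiff.1 hb
      refine ⟨insert b A, insert_subset hbS hAS, ?_, mem_insert_of_mem hxA, ?_⟩
      · rw [card_insert_of_notMem hbA, hAc]
      · intro y hy
        have e : (j + 1) * t = j * t + t := by ring
        rcases mem_insert.1 hy with rfl | hy
        · have h1 := H.dt x u y
          have h2 := hAd u hu
          omega
        · have h2 := hAd y hy
          omega
  have hc1 : 1 ≤ S.card := Finset.card_pos.2 ⟨x, hx⟩
  obtain ⟨A, hAS, hAc, -, hAd⟩ := key (S.card - 1) (by omega)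
  have hAS' : A = S := Finset.eq_of_subset_of_card_le hAS (by omega)
  intro y hy
  rw [← hAS'] at hy
  exact (hAd y hy).trans (Nat.mul_le_mul_right _ (by omega))

/-- the growth of the component of `x` by merging the other components -/
theorem gd_grow (H : KS ds V0 V o z N q w v Ds C W) (hT : 0 ≤ T0) (ha1 : 1 ≤ a)
    (ha : C * W ^ 2 ≤ a) {t : ℕ}
    {S : Finset E} {x : E} (hA : Adm o z S x) (hc : conn ds (t + 1) S)
    (hT0 : o ∈ S → z ∈ S → psi v N (t + 1) ^ 2 ≤ T0)
    (hcmp : ∀ b ∈ S, Adm o z (kcmp ds t S b) b →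
      Gd ds V0 V o z N q w v Ds T0 a t (t + 1) (max t (dm ds (kcmp ds t S b)))
      (4 * (kcmp ds t S b).card - 3) (kcmp ds t S b) b) :
    ∀ m : ℕ, ∀ U : Finset E, (S \ U).card = m → U ⊆ S → U ≠ S → x ∈ U →
      (∀ y ∈ U, ∀ z ∈ S, z ∉ U → t < ds y z) →
      Gd ds V0 V o z N q w v Ds T0 a t (t + 1) (max (t + 1) (dm ds U)) (4 * U.card - 2) U x →
      Gd ds V0 V o z N q w v Ds T0 a t (t + 1) (max (t + 1) (dm ds S)) (4 * S.card - 4) S x := by
  intro m
  induction m using Nat.strong_induction_on with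
  | _ m ihm =>
    intro U hUm hUS hUne hxU hcl hG
    have hne : (S \ U).Nonempty := by
      rw [Finset.sdiff_nonempty]
      intro h
      exact hUne (Finset.Subset.antisymm hUS h)
    obtain ⟨u, hu, b, hb', hub⟩ := hc U hUS ⟨x, hxU⟩ hne
    obtain ⟨hbS, hbU⟩ := Finset.mem_sdiff.1 hb'
    have hRS := kcmp_sub (ds := ds) t S b
    have hbR : b ∈ kcmp ds t S b := self_kcmp hbS
    have hRU : ∀ z ∈ kcmp ds t S b, z ∉ U := by
      refine kcmp_ind hbS hbU ?_
      intro v hv w hw hvU hvw hwU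
      have := hcl w hwU v (hRS hv) hvU
      rw [H.dc] at this
      omega
    have hoR : o ∉ kcmp ds t S b := by
      intro h
      have := hA.2.1 (hRS h)
      subst this
      exact hRU _ h hxU
    have hdisj : Disjoint U (kcmp ds t S b) := by
      rw [Finset.disjoint_right]
      exact hRU
    have hfar : ∀ v ∈ U, ∀ w ∈ kcmp ds t S b, t < ds v w := fun v hv w hw =>
      hcl v hv w (hRS hw) (hRU w hw)
    have hcard : (U ∪ kcmp ds t S b).card = U.card + (kcmp ds t S b).card :=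
      Finset.card_union_of_disjoint hdisj
    have hc1 : 1 ≤ U.card := Finset.card_pos.2 ⟨x, hxU⟩
    have hc2 : 1 ≤ (kcmp ds t S b).card := Finset.card_pos.2 ⟨b, hbR⟩
    have e : 4 * U.card - 2 + (4 * (kcmp ds t S b).card - 3) + 1 =
        4 * (U ∪ kcmp ds t S b).card - 4 := by omega
    have hM : Gd ds V0 V o z N q w v Ds T0 a t (t + 1) (max (t + 1) (dm ds (U ∪ kcmp ds t S b)))
        (4 * (U ∪ kcmp ds t S b).card - 4) (U ∪ kcmp ds t S b) x := by
      by_cases hzR : z ∈ kcmp ds t S b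
      · -- the group of the other root
        have hzS : z ∈ S := hRS hzR
        have hzU : z ∉ U := hRU z hzR
        have hoS : o ∈ S := by
          by_contra hoS
          have := hA.2.2 hoS hzS
          subst this
          exact hzU hxU
        have hxo := hA.2.1 hoS
        subst hxo
        -- the component of `b` is the component of `z`
        have hce : kcmp ds t S z = kcmp ds t S b := by
          ext y
          rw [mem_kcmp, mem_kcmp]
          have h1 := (mem_kcmp.1 hzR).2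
          have hsym : ∀ u v : E, Relation.ReflTransGen (kstp ds t S) u v →
              Relation.ReflTransGen (kstp ds t S) v u := by
            intro u v h
            induction h with
            | refl => exact Relation.ReflTransGen.refl
            | tail _ hbc ih =>
              refine Relation.ReflTransGen.head ⟨hbc.2.1, hbc.1, ?_⟩ ih
              rw [H.dc]
              exact hbc.2.2
          constructor
          · rintro ⟨k1, k2⟩
            exact ⟨k1, h1.trans k2⟩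
          · rintro ⟨k1, k2⟩
            exact ⟨k1, (hsym _ _ h1).trans k2⟩
        have hcz := hcmp z hzS (by
          rw [hce]
          exact ⟨hzR, fun h => absurd h hoR, fun _ _ => rfl⟩)
        rw [hce] at hcz
        have hM := gd_merge2 H ha1 ha hxU hzU hoR hzR hfar (hT0 hoS hzS) hG hcz
          (max (t + 1) (dm ds (U ∪ kcmp ds t S b)))
        rw [e] at hM
        exact hM
      · have hM := gd_merge H hT ha1 ha hoR hzR hxU hu hbR
          (by rw [H.dc]; exact hub) hfar hG (hcmp b hbS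
            ⟨hbR, fun h => absurd h hoR, fun _ h => absurd h hzR⟩)
        rw [e] at hM
        exact hM
    have hU'S : U ∪ kcmp ds t S b ⊆ S := Finset.union_subset hUS hRS
    by_cases hfin : U ∪ kcmp ds t S b = S
    · rw [hfin] at hM
      exact hM
    · refine ihm (S \ (U ∪ kcmp ds t S b)).card ?_ (U ∪ kcmp ds t S b) rfl hU'S hfin
        (Finset.mem_union_left _ hxU) ?_
        (gd_mono H hT hM le_rfl le_rfl (by omega) ha1)
      · rw [← hUm]
        apply Finset.card_lt_card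
        rw [Finset.ssubset_iff_of_subset
          (Finset.sdiff_subset_sdiff (Finset.Subset.refl S) Finset.subset_union_left)]
        exact ⟨b, hb', fun h => (Finset.mem_sdiff.1 h).2 (Finset.mem_union_right _ hbR)⟩
      · intro y hy z hz hzn
        rw [Finset.mem_union, not_or] at hzn
        rcases Finset.mem_union.1 hy with hy | hy
        · exact hcl y hy z hz hzn.1
        · exact kcmp_far hy hz hzn.2

/-- the root of the component of the root -/
theorem adm_cmp {t : ℕ} {S : Finset E} {x : E} (hA : Adm o z S x)  :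
    Adm o z (kcmp ds t S x) x := by
  refine ⟨self_kcmp hA.1, fun h => hA.2.1 (kcmp_sub _ _ _ h), fun h1 h2 => ?_⟩
  apply hA.2.2 _ (kcmp_sub _ _ _ h2)
  intro ho
  have := hA.2.1 ho
  subst this
  exact h1 (self_kcmp ho)

/-- KEY' -/
theorem gd_key (H : KS ds V0 V o z N q w v Ds C W) (hT : 0 ≤ T0) (ha1 : 1 ≤ a)
    (ha : C * W ^ 2 ≤ a) {n0 : ℕ} (hT1 : ds o z = 0 → 1 ≤ T0)
    (hT0 : ∀ t : ℕ, ds o z ≤ n0 * (t + 1) → psi v N (t + 1) ^ 2 ≤ T0) :
    ∀ (t t' : ℕ) (S : Finset E) (x : E), S ⊆ V0 → S.card ≤ n0 → Adm o z S x → t ≤ t' → t' ≤ N →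
      conn ds t S →
      Gd ds V0 V o z N q w v Ds T0 a t' t (max t' (dm ds S)) (4 * S.card - 3) S x := by
  intro t
  induction t with
  | zero =>
    intro t' S x hSV _ hA _ ht' hc
    have h0 := conn_zero3 H hA.1 hc
    have hcard : 1 ≤ S.card := Finset.card_pos.2 ⟨x, hA.1⟩
    exact gd_mono H hT (gd_base H ha hT1 hSV hA ht' h0) le_rfl le_rfl (by omega) ha1
  | succ t ih =>
    intro t' S x hSV hSn hA htt' ht' hc
    by_cases hall : kcmp ds t S x = S
    · have hct : conn ds t S := by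
        rw [← hall]
        exact kcmp_conn3 H hA.1
      exact gd_mono H hT (ih t' S x hSV hSn hA (by omega) ht' hct) (Nat.le_succ t) le_rfl
        le_rfl ha1
    · have hcmp : ∀ b ∈ S, Adm o z (kcmp ds t S b) b →
          Gd ds V0 V o z N q w v Ds T0 a t (t + 1) (max t (dm ds (kcmp ds t S b)))
          (4 * (kcmp ds t S b).card - 3) (kcmp ds t S b) b := by
        intro b hb' hab
        exact gd_mono H hT (ih t (kcmp ds t S b) b ((kcmp_sub _ _ _).trans hSV)
          ((Finset.card_le_card (kcmp_sub _ _ _)).trans hSn) hab le_rfl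
          (by omega) (kcmp_conn3 H hb')) (Nat.le_succ t) le_rfl le_rfl ha1
      have h1 := gd_start H hT ha1 ha (hcmp x hA.1 (adm_cmp hA))
      have hc1 : 1 ≤ (kcmp ds t S x).card := Finset.card_pos.2 ⟨x, self_kcmp hA.1⟩
      have e1 : 4 * (kcmp ds t S x).card - 3 + 1 = 4 * (kcmp ds t S x).card - 2 := by omega
      rw [e1] at h1
      have h2 := gd_grow H hT ha1 ha hA hc (fun hoS hzS => by
          apply hT0
          refine (conn_diam H hc hoS z hzS).trans (Nat.mul_le_mul_right _ hSn)) hcmp _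
        (kcmp ds t S x) rfl (kcmp_sub t S x) hall
        (self_kcmp hA.1) (fun y hy z hz hzn => kcmp_far hy hz hzn) h1
      have h3 := gd_out H hT ha1 ha hSV hA htt' ht' h2
      have hc2 : 1 ≤ S.card := Finset.card_pos.2 ⟨x, hA.1⟩
      exact gd_mono H hT h3 le_rfl le_rfl (by omega) ha1

/-- KEY for a set with both roots, of diameter at most `N`. -/
theorem key3 (H : KS ds V0 V o z N q w v Ds C W) (hT : 0 ≤ T0) (ha1 : 1 ≤ a)
    (ha : C * W ^ 2 ≤ a)
    (hdiam : ∀ x ∈ V0, ∀ y ∈ V0, ds x y ≤ N) {S : Finset E} (hSV : S ⊆ V0) (ho : o ∈ S)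
    (hz : z ∈ S) (hT1 : ds o z = 0 → 1 ≤ T0)
    (hT0 : ∀ t : ℕ, ds o z ≤ S.card * (t + 1) → psi v N (t + 1) ^ 2 ≤ T0) :
    ∃ (par : E → E) (rk : E → ℕ), (∀ y ∈ S \ {o, z}, par y ∈ S ∧ rk (par y) < rk y) ∧
      Pr (fun _ => q) V (Ds S) ≤
        T0 * (a ^ (4 * S.card) * ∏ y ∈ S \ {o, z}, psi w N (ds y (par y))) := by
  have hc : conn ds N S := by
    intro A hA hne hne'
    obtain ⟨x, hx⟩ := hne
    obtain ⟨y, hy⟩ := hne'
    exact ⟨x, hx, y, hy, hdiam x (hSV (hA hx)) y (hSV (mem_sdiff.1 hy).1)⟩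
  have hr : rt o z S o = {o, z} := by unfold rt; rw [if_pos ⟨ho, hz⟩]
  obtain ⟨Ev, par, rk, -, g2, g3, g4⟩ := gd_mono H hT
    (gd_key H hT ha1 ha hT1 hT0 N N S o hSV le_rfl ⟨ho, fun _ => rfl, fun h => absurd ho h⟩
      le_rfl le_rfl hc) le_rfl le_rfl (k' := 4 * S.card) (by omega) ha1
  rw [hr] at g3 g4
  refine ⟨par, rk, fun y hy => ⟨(g3 y hy).1, (g3 y hy).2.1⟩, ?_⟩
  refine (Pr_mono H.ok (B := Ev) fun F hFV hF => ?_).trans (g4.trans (le_of_eq ?_))
  · refine g2 S hSV (Finset.Subset.refl S) ho hz (fun v _ y hy => ?_) F hFV hF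
    rw [Finset.sdiff_self] at hy
    exact absurd hy (Finset.notMem_empty y)
  · have e1 : tt o z T0 S = T0 := by unfold tt; rw [if_pos ⟨ho, hz⟩]
    have e2 : psi (uu o z w v S) N (max N (dm ds S)) = 1 := by
      unfold psi uu
      rw [if_pos ho, if_pos hz]
    rw [e1, e2, mul_one]

end

end Pool.Agent.H29.TG
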