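import Pool.Agent.H29.TH.Set
import Pool.Agent.H29.TG.Key3
import Pool.Graph.R_pool_sql_team_seeded_f72693b1.W424.NC.VolLow

/-!
The annuli around a group of edges which matter together for the connection of two points.
-/

set_option autoImplicit false

namespace Pool.Agent.H29.TG

open H974 hiding WW
open H12S H389NS Finset
open Pool.Agent.NH39 (dd InB OutB ann_cross A4a_congr Dep)
open Pool.Agent.NH39.W (Dl sg_zero wt WW WW_one wt_pos wt_ratio lam_nonneg cube_exp)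
open Pool.Agent.H29.TH (oo ps dd_self dd_comm dd_tri ann_dd blk_sub_box congr_ann A4_local Cr
  pr_Cr Wf)

/-- The root edge at `x`. -/
def ro (x : Vtx) : Edg := (x.1, x.2, true)

/-- The indicator of the connection of the origin and `x` in the box. -/
noncomputable def fT (L : ℕ) (x : Vtx) (F : Finset Edg) : ℝ :=
  ind (Reach ((↑F : Set Edg) ∩ ↑(boxE L)) (0, 0) x)

/-- All the elements of `T` except perhaps the roots matter together. -/
def Dsr (L : ℕ) (x : Vtx) (T F : Finset Edg) : Prop :=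
  ∃ T' ⊆ T, T \ {oo, ro x} ⊆ T' ∧ Dl (fT L x) T' F ≠ 0

/-- One arm through an annulus with centre `c`. -/
def CrC (c : Vtx) (r D : ℕ) (F : Finset Edg) : Prop := ∃ u ∈ bdB c r, ∃ w ∈ bdB c D,
  Reach ((↑F : Set Edg) ∩ ↑(blk c D \ blk c r)) u w

theorem ps_ro (x : Vtx) : ps (ro x) = x := rfl

theorem outB_of_dd {y : Edg} {D : ℕ} {e : Edg} (h : D < dd e y) : OutB (ps y) D (ps e) := by
  obtain ⟨a, b, t⟩ := y
  obtain ⟨a', b', t'⟩ := e
  unfold dd at h
  unfold OutB ps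
  simp only at h ⊢
  rcases lt_max_iff.1 h with h | h
  · left; rw [le_abs]; omega
  · right; rw [le_abs]; omega

/-- A pivotal edge far from both points has four arms through the annulus. -/
theorem det4x {L : ℕ} {x : Vtx} {y : Edg} {r D : ℕ} (hr : 1 ≤ r) (hrD : r ≤ D)
    (hx1 : |y.1| + D ≤ L) (hx2 : |y.2.1| + D ≤ L) (h0 : D < dd oo y) (h0' : D < dd (ro x) y)
    {G : Finset Edg}
    (h1 : Reach ((↑(insert y G) : Set Edg) ∩ ↑(boxE L)) (0, 0) x)
    (h2 : ¬ Reach ((↑G : Set Edg) ∩ ↑(boxE L)) (0, 0) x) : A4a (ps y) r D (↑G : Set Edg) := by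
  obtain ⟨H, hH⟩ : ∃ H : Set Edg, H = (↑G : Set Edg) ∩ ↑(boxE L) := ⟨_, rfl⟩
  have hR' : Reach (insert y H) (0, 0) x := by
    refine h1.mono ?_
    rintro e ⟨he1, he2⟩
    rw [Finset.coe_insert] at he1
    rcases he1 with he1 | he1
    · exact Or.inl he1
    · right; rw [hH]; exact ⟨he1, he2⟩
  have hno : ¬ Reach H (0, 0) x := by rw [hH]; exact h2
  have hs : InB (ps y) r (src y) := by
    obtain ⟨a, b, t⟩ := y
    unfold InB ps
    simp
  have ht : InB (ps y) r (tgt y) := by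
    obtain ⟨a, b, _ | _⟩ := y
    · unfold InB ps
      simp only [tgt_false, sub_self, abs_zero, add_sub_cancel_left, abs_one]
      exact ⟨by positivity, by exact_mod_cast hr⟩
    · unfold InB ps
      simp only [tgt_true, sub_self, abs_zero, add_sub_cancel_left, abs_one]
      exact ⟨by exact_mod_cast hr, by positivity⟩
  have ho : OutB (ps y) D (0, 0) := outB_of_dd h0
  have hvo : OutB (ps y) D x := outB_of_dd h0'
  have key : ∀ a b : Vtx, InB (ps y) r a → InB (ps y) r b → Reach H (0, 0) a → Reach H b x →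
      A4a (ps y) r D (↑G : Set Edg) := by
    intro a b ha hb ra rb
    obtain ⟨u1, hu1, w1, hw1, p1, p2⟩ := ann_cross hrD ha ho ra.symm
    obtain ⟨u2, hu2, w2, hw2, p3, p4⟩ := ann_cross hrD hb hvo rb
    have hsub : H ∩ ↑(blk (ps y) D \ blk (ps y) r) ⊆
        (↑G : Set Edg) ∩ ↑(blk (ps y) D \ blk (ps y) r) := by
      rw [hH]
      rintro e ⟨⟨k1, -⟩, k2⟩
      exact ⟨k1, k2⟩
    have hsub2 : (↑G : Set Edg) ∩ ↑(blk (ps y) D \ blk (ps y) r) ⊆ H := by
      rw [hH]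
      rintro e ⟨k1, k2⟩
      refine ⟨k1, ?_⟩
      rw [Finset.mem_coe, mem_sdiff] at k2
      exact blk_sub_box hx1 hx2 k2.1
    refine ⟨u1, hu1, u2, hu2, ⟨w1, hw1, p1.mono hsub⟩, ⟨w2, hw2, p3.mono hsub⟩, ?_⟩
    intro hc
    apply hno
    have q1 : Reach H u1 w1 := p1.mono Set.inter_subset_left
    have q2 : Reach H u2 w2 := p3.mono Set.inter_subset_left
    have q3 : Reach H u1 u2 := hc.mono hsub2
    exact ((((ra.trans p2).trans q1.symm).trans q3).trans q2).trans (p4.symm.trans rb)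
  rcases reach_insert hR' with h | ⟨k1, k2⟩ | ⟨k1, k2⟩
  · exact absurd (h.mono Set.sdiff_subset) hno
  · exact key _ _ hs ht (k1.mono Set.sdiff_subset) (k2.mono Set.sdiff_subset)
  · exact key _ _ ht hs (k1.mono Set.sdiff_subset) (k2.mono Set.sdiff_subset)

/-- The annuli around the groups without a root. -/
theorem dl_w {L : ℕ} {x : Vtx} {y : Edg} {r D : ℕ} (hr : 1 ≤ r) (hrD : r ≤ D)
    (hx1 : |y.1| + D ≤ L)
    (hx2 : |y.2.1| + D ≤ L) (h0 : D < dd oo y) (h0' : D < dd (ro x) y) {S F : Finset Edg}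
    (hyS : y ∈ S) (hS : ∀ z ∈ S, dd z y < r ∨ D < dd z y) (hD : Dl (fT L x) S F ≠ 0) :
    A4a (ps y) r D (↑F : Set Edg) := by
  by_contra hno
  apply hD
  unfold Dl
  refine sg_zero hyS (fun T => fT L x ((F \ S) ∪ T)) ?_
  intro T hT
  have hTS : T ⊆ S := hT.trans (erase_subset _ _)
  show fT L x ((F \ S) ∪ insert y T) = fT L x ((F \ S) ∪ T)
  rw [Finset.union_insert]
  unfold fT
  apply ind_congr
  constructor
  · intro h
    by_contra hc
    have h4 := det4x hr hrD hx1 hx2 h0 h0' h hc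
    rw [A4a_congr (congr_ann hTS hS)] at h4
    exact hno h4
  · intro h
    refine h.mono (Set.inter_subset_inter_left _ ?_)
    exact_mod_cast subset_insert _ _

/-- The annuli around the root `e`, which is one of the two points. -/
theorem dl_v {L : ℕ} {x : Vtx} {e e' : Edg} {r D : ℕ} (hrD : r ≤ D)
    (he : (ps e = (0, 0) ∧ ps e' = x) ∨ (ps e = x ∧ ps e' = (0, 0))) (hee : D < dd e' e)
    {S F : Finset Edg}
    (hS : ∀ y ∈ S, dd y e < r ∨ D < dd y e) (hD : Dl (fT L x) S F ≠ 0) : CrC (ps e) r D F := by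
  by_contra hno
  apply hD
  unfold Dl
  apply Finset.sum_eq_zero
  intro T hT
  rw [mem_powerset] at hT
  have h1 : fT L x ((F \ S) ∪ T) = 0 := by
    unfold fT
    apply ind_not_of
    intro h
    apply hno
    have hR : Reach ((↑((F \ S) ∪ T) : Set Edg) ∩ ↑(boxE L)) (ps e) (ps e') := by
      rcases he with ⟨k1, k2⟩ | ⟨k1, k2⟩
      · rw [k1, k2]; exact h
      · rw [k1, k2]; exact h.symm
    have hi : InB (ps e) r (ps e) := by unfold InB; simp
    obtain ⟨u, hu, w, hw, p1, -⟩ := ann_cross hrD hi (outB_of_dd hee) hR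
    have p2 : Reach ((↑((F \ S) ∪ T) : Set Edg) ∩ ↑(blk (ps e) D \ blk (ps e) r)) u w :=
      p1.mono (by rintro f ⟨⟨k1, -⟩, k2⟩; exact ⟨k1, k2⟩)
    rw [congr_ann hT hS] at p2
    exact ⟨u, hu, w, hw, p2⟩
  rw [h1, mul_zero]

theorem CrC_local {e : Edg} {r D : ℕ} {F F' : Finset Edg}
    (h : ∀ f, r ≤ dd f e → dd f e ≤ D → (f ∈ F ↔ f ∈ F')) :
    CrC (ps e) r D F ↔ CrC (ps e) r D F' := by
  have e0 : (↑F : Set Edg) ∩ ↑(blk (ps e) D \ blk (ps e) r) =
      (↑F' : Set Edg) ∩ ↑(blk (ps e) D \ blk (ps e) r) := by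
    ext f
    constructor
    · rintro ⟨h1, h2⟩
      have h3 := ann_dd (Finset.mem_coe.1 h2)
      exact ⟨(h f h3.1 h3.2).1 h1, h2⟩
    · rintro ⟨h1, h2⟩
      have h3 := ann_dd (Finset.mem_coe.1 h2)
      exact ⟨(h f h3.1 h3.2).2 h1, h2⟩
  unfold CrC
  rw [e0]

/-! ### the one-arm bound below the critical point -/

theorem CrC_congr {c : Vtx} {r D : ℕ} {F F' : Set Edg}
    (h : F ∩ ↑(blk c D \ blk c r) = F' ∩ ↑(blk c D \ blk c r)) :
    (∃ u ∈ bdB c r, ∃ w ∈ bdB c D, Reach (F ∩ ↑(blk c D \ blk c r)) u w) ↔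
      ∃ u ∈ bdB c r, ∃ w ∈ bdB c D, Reach (F' ∩ ↑(blk c D \ blk c r)) u w := by
  rw [h]

theorem CrC_trl {c : ℤ × ℤ} {d k : ℕ} {F : Finset Edg}
    (h : CrC c d k ((trl c.1 c.2).mp F)) : CrC (0, 0) d k F := by
  have hblk : ∀ j : ℕ, (trl c.1 c.2).mp (blk (0, 0) j) = blk c j := by
    intro j
    unfold blk
    rw [trl_RE]
    congr 1 <;> ring
  have hset : (↑((trl c.1 c.2).mp F) : Set Edg) ∩ ↑(blk c k \ blk c d) =
      (trl c.1 c.2).φ '' ((↑F : Set Edg) ∩ ↑(blk (0, 0) k \ blk (0, 0) d)) := by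
    rw [← hblk k, ← hblk d, ← LSym.mp_sdiff, ← Finset.coe_inter, ← LSym.mp_inter, LSym.coe_mp,
      Finset.coe_inter]
  have hb : ∀ (j : ℕ) (w : Vtx), w ∈ bdB c j → ∃ w0 ∈ bdB (0, 0) j, (trl c.1 c.2).ψ w0 = w := by
    rintro j ⟨w1, w2⟩ ⟨g1, g2, g3⟩
    refine ⟨(w1 - c.1, w2 - c.2), ⟨?_, ?_, ?_⟩, ?_⟩
    · simpa using g1
    · simpa using g2
    · simpa using g3
    · rw [trl_ψ, sub_add_cancel, sub_add_cancel]
  unfold CrC at h ⊢
  rw [hset] at h
  obtain ⟨u, hu, w, hw, hr⟩ := h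
  obtain ⟨u0, hu0, rfl⟩ := hb d u hu
  obtain ⟨w0, hw0, rfl⟩ := hb k w hw
  rw [LSym.reach_iff] at hr
  exact ⟨u0, hu0, w0, hw0, hr⟩

/-- The probability around the origin. -/
noncomputable def hC (q : ℝ) (d k : ℕ) : ℝ := Pr (fun _ => q) (boxE k) (CrC (0, 0) d k)

theorem CrC_inter {c : Vtx} {d k : ℕ} {F : Finset Edg} :
    CrC c d k F ↔ CrC c d k (F ∩ blk c k) := by
  have e : (↑(F ∩ blk c k) : Set Edg) ∩ ↑(blk c k \ blk c d) =
      (↑F : Set Edg) ∩ ↑(blk c k \ blk c d) := by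
    ext f
    simp only [Finset.coe_inter, Finset.coe_sdiff, Set.mem_inter_iff, Set.mem_sdiff,
      Finset.mem_coe]
    tauto
  unfold CrC
  rw [e]

theorem le_hC {q : ℝ} (hok : Ok (fun _ : Edg => q)) {c : ℤ × ℤ} {d k : ℕ} {S : Finset Edg}
    (hS : blk c k ⊆ S) : Pr (fun _ => q) S (CrC c d k) ≤ hC q d k := by
  have e1 : Pr (fun _ => q) S (CrC c d k) = Pr (fun _ => q) (blk c k) (CrC c d k) :=
    Pr_local hS (fun F _ => CrC_inter)
  rw [e1]
  have hblk : (trl c.1 c.2).mp (boxE k) = blk c k := by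
    unfold blk boxE
    rw [trl_RE]
    congr 1 <;> ring
  rw [← hblk, LSym.pr]
  exact Pr_mono hok (fun F _ hF => CrC_trl hF)

theorem CrC_split {d k D : ℕ} (h1 : d ≤ k) (h2 : k ≤ D) {F : Finset Edg}
    (h : CrC (0, 0) d D F) : CrC (0, 0) d k F ∧ CrC (0, 0) k D F := by
  obtain ⟨u, hu, w, hw, hr⟩ := h
  have h1' : (d:ℤ) ≤ k := by exact_mod_cast h1
  have h2' : (k:ℤ) ≤ D := by exact_mod_cast h2
  constructor
  · have hi : InB (0, 0) d u := ⟨hu.1, hu.2.1⟩
    have ho : OutB (0, 0) k w := by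
      rcases hw.2.2 with h | h
      · left; rw [h]; exact h2'
      · right; rw [h]; exact h2'
    obtain ⟨u', hu', w', hw', p1, -⟩ := ann_cross h1 hi ho hr
    exact ⟨u', hu', w', hw', p1.mono (by rintro f ⟨⟨k1, -⟩, k2⟩; exact ⟨k1, k2⟩)⟩
  · have hi : InB (0, 0) k u := ⟨hu.1.trans h1', hu.2.1.trans h1'⟩
    have ho : OutB (0, 0) D w := by
      rcases hw.2.2 with h | h
      · left; rw [h]
      · right; rw [h]
    obtain ⟨u', hu', w', hw', p1, -⟩ := ann_cross h2 hi ho hr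
    exact ⟨u', hu', w', hw', p1.mono (by rintro f ⟨⟨k1, -⟩, k2⟩; exact ⟨k1, k2⟩)⟩

theorem CrC_dep (c : ℤ × ℤ) (d k : ℕ) : Dep (blk c k \ blk c d) (CrC c d k) := by
  intro F F' hF
  have h : (↑F : Set Edg) ∩ ↑(blk c k \ blk c d) = (↑F' : Set Edg) ∩ ↑(blk c k \ blk c d) := by
    rw [← Finset.coe_inter, ← Finset.coe_inter, hF]
  exact CrC_congr h

theorem hC_nonneg {q : ℝ} (hok : Ok (fun _ : Edg => q)) (d k : ℕ) : 0 ≤ hC q d k :=
  Pr_nonneg hok _ _

theorem hC_split {q : ℝ} (q0 : 0 ≤ q) (q1 : q ≤ 1) {d k D : ℕ} (h1 : d ≤ k) (h2 : k ≤ D) :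
    hC q d D ≤ hC q d k * hC q k D := by
  have ok := okq q0 q1
  have hb : blk (0, 0) D = boxE D := S4C_blk0 D
  have s1 : blk (0, 0) k \ blk (0, 0) d ⊆ boxE D := by
    refine Finset.sdiff_subset.trans ?_
    rw [← hb]
    unfold blk
    exact RE_subset (by omega) (by omega) (by omega) (by omega)
  have s2 : blk (0, 0) D \ blk (0, 0) k ⊆ boxE D := by
    refine Finset.sdiff_subset.trans ?_
    rw [← hb]
  have hd : Disjoint (blk (0, 0) k \ blk (0, 0) d) (blk (0, 0) D \ blk (0, 0) k) := by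
    rw [Finset.disjoint_left]
    intro e he he'
    exact (Finset.mem_sdiff.1 he').2 (Finset.mem_sdiff.1 he).1
  have hmul := (CrC_dep (0, 0) d k).mul (CrC_dep (0, 0) k D) s1 s2 hd (fun _ => q)
  have g1 : hC q d D ≤ Pr (fun _ => q) (boxE D)
      (fun F => CrC (0, 0) d k F ∧ CrC (0, 0) k D F) :=
    Pr_mono ok (fun F _ h => CrC_split h1 h2 h)
  rw [hmul] at g1
  refine g1.trans ?_
  apply mul_le_mul _ _ (Pr_nonneg ok _ _) (hC_nonneg ok _ _)
  · apply le_hC ok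
    rw [← hb]
    unfold blk
    exact RE_subset (by omega) (by omega) (by omega) (by omega)
  · apply le_hC ok
    rw [← hb]

theorem hC_anti {q : ℝ} (q0 : 0 ≤ q) (q1 : q ≤ 1) {d k D : ℕ} (h1 : d ≤ k) (h2 : k ≤ D) :
    hC q d D ≤ hC q d k := by
  have ok := okq q0 q1
  refine (hC_split q0 q1 h1 h2).trans ?_
  exact mul_le_of_le_one_right (hC_nonneg ok _ _) (Pr_le_one ok _ _)

theorem CrC_crs {d m : ℕ} (hdm : d < m) {F : Finset Edg} (h : CrC (0, 0) d (3 * m) F) :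
    (LRc m (3 * m) (-(3 * m)) (3 * m) F ∨ LRc (-(3 * m)) (-m) (-(3 * m)) (3 * m) F) ∨
      (TBc (-(3 * m)) (3 * m) m (3 * m) F ∨ TBc (-(3 * m)) (3 * m) (-(3 * m)) (-m) F) := by
  obtain ⟨u, hu, w, hw, hr⟩ := h
  obtain ⟨hu1, hu2, -⟩ := hu
  obtain ⟨-, -, hw3⟩ := hw
  rw [abs_le] at hu1 hu2
  push_cast at hw3
  simp only [sub_zero] at hu1 hu2 hw3
  have hm : (d:ℤ) < m := by exact_mod_cast hdm
  have hG : ∀ e ∈ (↑F : Set Edg) ∩ ↑(blk (0, 0) (3 * m) \ blk (0, 0) d),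
      e ∈ RE (-(3 * m)) (3 * m) (-(3 * m)) (3 * m) := by
    rintro e ⟨-, he⟩
    rw [Finset.mem_coe, Finset.mem_sdiff] at he
    have := he.1
    unfold blk at this
    simpa using this
  have hsub : ∀ T : Finset Edg, ((↑F : Set Edg) ∩ ↑(blk (0, 0) (3 * m) \ blk (0, 0) d)) ∩ ↑T ⊆
      (↑F : Set Edg) ∩ ↑T := by
    rintro T e ⟨⟨h1, -⟩, h2⟩
    exact ⟨h1, h2⟩
  rcases hw3 with hw3 | hw3
  · left
    rcases abs_eq (by positivity : (0:ℤ) ≤ 3 * m) |>.1 hw3 with h1 | h1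
    · left
      obtain ⟨y1, y2, k1, k2, k3, -⟩ := sub_LR (a := m) (b := 3 * m) (c := -(3 * m)) (d := 3 * m)
        (by omega)
        (by intro x y h _ _; have := hG _ h; rw [mem_RE_true] at this; omega)
        (by intro x y h _ _; have := hG _ h; rw [mem_RE_false] at this; omega) hr (by omega)
        (by omega)
      exact ⟨y1, y2, k1, k2, k3.mono (hsub _)⟩
    · right
      obtain ⟨y1, y2, k1, k2, k3, -⟩ := sub_LR (a := -(3 * m)) (b := -m) (c := -(3 * m))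
        (d := 3 * m) (by omega)
        (by intro x y h _ _; have := hG _ h; rw [mem_RE_true] at this; omega)
        (by intro x y h _ _; have := hG _ h; rw [mem_RE_false] at this; omega) hr.symm (by omega)
        (by omega)
      exact ⟨y1, y2, k1, k2, k3.mono (hsub _)⟩
  · right
    rcases abs_eq (by positivity : (0:ℤ) ≤ 3 * m) |>.1 hw3 with h1 | h1
    · left
      obtain ⟨y1, y2, k1, k2, k3, -⟩ := sub_TB (a := -(3 * m)) (b := 3 * m) (c := m) (d := 3 * m)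
        (by omega)
        (by intro x y h _ _; have := hG _ h; rw [mem_RE_false] at this; omega)
        (by intro x y h _ _; have := hG _ h; rw [mem_RE_true] at this; omega) hr (by omega)
        (by omega)
      exact ⟨y1, y2, k1, k2, k3.mono (hsub _)⟩
    · right
      obtain ⟨y1, y2, k1, k2, k3, -⟩ := sub_TB (a := -(3 * m)) (b := 3 * m) (c := -(3 * m))
        (d := -m) (by omega)
        (by intro x y h _ _; have := hG _ h; rw [mem_RE_false] at this; omega)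
        (by intro x y h _ _; have := hG _ h; rw [mem_RE_true] at this; omega) hr.symm (by omega)
        (by omega)
      exact ⟨y1, y2, k1, k2, k3.mono (hsub _)⟩

theorem hC_crs {q : ℝ} (h0 : 0 ≤ q) (h1 : q ≤ 1) {d m : ℕ} (hdm : d < m) :
    hC q d (3 * m) ≤ 4 * hh q (2 * m : ℕ) (6 * m : ℕ) := by
  have ok := okq h0 h1
  have s0 : boxE (3 * m) = RE (-(3 * m : ℤ)) (3 * m) (-(3 * m)) (3 * m) := by
    unfold boxE; push_cast; rfl
  have hmz : (0:ℤ) ≤ m := by positivity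
  have s1 : LRE (m:ℤ) (3 * m) (-(3 * m)) (3 * m) ⊆ boxE (3 * m) := by
    rw [s0]; exact LRE_subset_RE.trans (RE_subset (by omega) le_rfl le_rfl le_rfl)
  have s2 : LRE (-(3 * m : ℤ)) (-m) (-(3 * m)) (3 * m) ⊆ boxE (3 * m) := by
    rw [s0]; exact LRE_subset_RE.trans (RE_subset le_rfl (by omega) le_rfl le_rfl)
  have s3 : TBE (-(3 * m : ℤ)) (3 * m) m (3 * m) ⊆ boxE (3 * m) := by
    rw [s0]; exact TBE_subset_RE.trans (RE_subset le_rfl le_rfl (by omega) le_rfl)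
  have s4 : TBE (-(3 * m : ℤ)) (3 * m) (-(3 * m)) (-m) ⊆ boxE (3 * m) := by
    rw [s0]; exact TBE_subset_RE.trans (RE_subset le_rfl le_rfl le_rfl (by omega))
  have e1 := pr_LRc q s1
  have e2 := pr_LRc q s2
  have e3 := pr_TBc q s3
  have e4 := pr_TBc q s4
  have c1 : ((2 * m : ℕ) : ℤ) = 3 * m - m := by push_cast; ring
  have c2 : ((6 * m : ℕ) : ℤ) = 3 * m - (-(3 * m)) := by push_cast; ring
  have c3 : ((2 * m : ℕ) : ℤ) = -m - (-(3 * m)) := by push_cast; ring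
  rw [← c1, ← c2] at e1 e3
  rw [← c3, ← c2] at e2 e4
  refine (Pr_mono ok (fun F _ h => CrC_crs hdm h)).trans ?_
  refine (Pr_or_le ok _ _ _).trans ?_
  have i1 := Pr_or_le ok (boxE (3 * m)) (LRc m (3 * m) (-(3 * m)) (3 * m))
    (LRc (-(3 * m)) (-m) (-(3 * m)) (3 * m))
  have i2 := Pr_or_le ok (boxE (3 * m)) (TBc (-(3 * m)) (3 * m) m (3 * m))
    (TBc (-(3 * m)) (3 * m) (-(3 * m)) (-m))
  linarith

/-- The weight of a root. -/
noncomputable def vs (q : ℝ) (s : ℕ) : ℝ :=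
  (s:ℝ) ^ (-(5/48) : ℝ) * ((1 + |q - 1/2| ^ (4/3 : ℝ)) / (1 + |q - 1/2| ^ (4/3 : ℝ) * s)) ^ 2

theorem vs_pos (q : ℝ) {r : ℕ} (hr : 1 ≤ r) : 0 < vs q r := by
  have := lam_nonneg q
  have hr0 : (0:ℝ) < r := by exact_mod_cast hr
  unfold vs
  positivity

/-- The ratio of the weights. -/
theorem vs_ratio {q : ℝ} {r D : ℕ} (hr : 1 ≤ r) (hD : r ≤ D) :
    vs q D / vs q r = ((r:ℝ) / D) ^ (5/48 : ℝ) *
      ((1 + |q - 1/2| ^ (4/3 : ℝ) * r) / (1 + |q - 1/2| ^ (4/3 : ℝ) * D)) ^ 2 := by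
  have hr0 : (0:ℝ) < r := by exact_mod_cast hr
  have hD0 : (0:ℝ) < D := by exact_mod_cast (by omega : 0 < D)
  obtain ⟨l, hl⟩ : ∃ l : ℝ, l = |q - 1/2| ^ (4/3 : ℝ) := ⟨_, rfl⟩
  have hl0 : 0 ≤ l := by rw [hl]; positivity
  unfold vs
  rw [← hl, Real.div_rpow hr0.le hD0.le, Real.rpow_neg hr0.le, Real.rpow_neg hD0.le]
  have a1 : 0 < (r:ℝ) ^ (5/48 : ℝ) := by positivity
  have a2 : 0 < (D:ℝ) ^ (5/48 : ℝ) := by positivity
  have a3 : 0 < 1 + l * r := by positivity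
  have a4 : 0 < 1 + l * D := by positivity
  have a5 : 0 < 1 + l := by positivity
  field_simp

/-- The bound for one annulus. -/
theorem hC_le : ∃ C : ℝ, 1 ≤ C ∧ ∀ q : ℝ, 0 ≤ q → q ≤ 1/2 → ∀ r D : ℕ, 1 ≤ r → r ≤ D →
    hC q r D ≤ C * (vs q D / vs q r) := by
  obtain ⟨K, hK, hcr⟩ := Pool.Agent.W424.NC.barm_crit
  obtain ⟨c1, C1, hc1, hC1, hwin⟩ := Pool.Agent.W424.NC.win_upper 3 (by norm_num)
  obtain ⟨K2, hK2, hexp⟩ := cube_exp (c := c1 / 3) (by positivity)
  obtain ⟨A, hA⟩ : ∃ A : ℝ, A = 1728 + K * 12 * (4 * C1 * K2) := ⟨_, rfl⟩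
  have hprod : 0 < K * 12 * (4 * C1 * K2) := by positivity
  refine ⟨A, by rw [hA]; linarith, ?_⟩
  intro q q0 q1 r D hr hrD
  have q1' : q ≤ 1 := by linarith
  have ok := okq q0 q1'
  rw [vs_ratio hr hrD]
  obtain ⟨l, hl⟩ : ∃ l : ℝ, l = |q - 1/2| ^ (4/3 : ℝ) := ⟨_, rfl⟩
  rw [← hl]
  have hl0 : 0 ≤ l := by rw [hl]; positivity
  have hr0 : (0:ℝ) < r := by exact_mod_cast hr
  have hrD' : (r:ℝ) ≤ D := by exact_mod_cast hrD
  have hD0 : (0:ℝ) < D := by linarith
  obtain ⟨X, hX⟩ : ∃ X : ℝ, X = ((r:ℝ) / D) ^ (5/48 : ℝ) := ⟨_, rfl⟩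
  rw [← hX]
  have hX0 : 0 < X := by rw [hX]; positivity
  have d1 : 0 < 1 + l * r := by positivity
  have d2 : 0 < 1 + l * D := by positivity
  rcases lt_or_ge D (12 * r) with h | h
  · have h1 : hC q r D ≤ 1 := Pr_le_one ok _ _
    have h2 : (D:ℝ) ≤ 12 * r := by exact_mod_cast h.le
    have e1 : 1 / 12 ≤ X := by
      rw [hX]
      have e2 : (1:ℝ) / 12 ≤ r / D := by rw [div_le_div_iff₀ (by norm_num) hD0]; linarith
      have e3 : (r:ℝ) / D ≤ (r / D) ^ (5/48 : ℝ) := by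
        have := Real.rpow_le_rpow_of_exponent_ge (x := (r:ℝ) / D) (by positivity)
          ((div_le_one hD0).2 hrD') (show (5/48 : ℝ) ≤ 1 by norm_num)
        rwa [Real.rpow_one] at this
      linarith
    have e2 : 1 / 12 ≤ (1 + l * r) / (1 + l * D) := by
      rw [div_le_div_iff₀ (by norm_num) d2]
      have := mul_le_mul_of_nonneg_left h2 hl0
      nlinarith
    have e2' : (1 / 12) ^ 2 ≤ ((1 + l * r) / (1 + l * D)) ^ 2 :=
      pow_le_pow_left₀ (by norm_num) e2 2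
    have e3 : 1 / 12 * (1 / 12) ^ 2 ≤ X * ((1 + l * r) / (1 + l * D)) ^ 2 :=
      mul_le_mul e1 e2' (by norm_num) hX0.le
    have e4 : 1728 * (X * ((1 + l * r) / (1 + l * D)) ^ 2) ≤
        A * (X * ((1 + l * r) / (1 + l * D)) ^ 2) := by
      apply mul_le_mul_of_nonneg_right _ (by positivity)
      rw [hA]; linarith
    linarith
  · obtain ⟨k, hk⟩ : ∃ k : ℕ, k = D / 6 := ⟨_, rfl⟩
    obtain ⟨m, hm⟩ : ∃ m : ℕ, m = D / 3 := ⟨_, rfl⟩
    have k1 : r ≤ k := by omega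
    have k2 : k < m := by omega
    have k3 : 3 * m ≤ D := by omega
    have k4 : D ≤ 12 * k := by omega
    have k5 : D ≤ 6 * m := by omega
    have g1 := hC_split q0 q1' k1 (by omega : k ≤ D)
    have g2 : hC q r k ≤ K * (12 * X) := by
      have i1 : hC q r k ≤ barm q r k := pr_Cr q0 q1' le_rfl k1
      have i2 := barm_mono_param q0 q1 (by norm_num) r k
      have i3 := hcr r k hr k1
      have hk0 : (0:ℝ) < k := by exact_mod_cast (by omega : 0 < k)
      have i4 : ((r:ℝ) / k) ^ (5/48 : ℝ) ≤ 12 * X := by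
        have j1 : (r:ℝ) / k ≤ 12 * (r / D) := by
          rw [← mul_div_assoc, div_le_div_iff₀ hk0 hD0]
          have : (D:ℝ) ≤ 12 * k := by exact_mod_cast k4
          nlinarith
        refine (Real.rpow_le_rpow (by positivity) j1 (by norm_num)).trans ?_
        rw [Real.mul_rpow (by norm_num) (by positivity), ← hX]
        apply mul_le_mul_of_nonneg_right _ hX0.le
        have := Real.rpow_le_rpow_of_exponent_le (show (1:ℝ) ≤ 12 by norm_num)
          (show (5/48 : ℝ) ≤ 1 by norm_num)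
        rwa [Real.rpow_one] at this
      exact (i1.trans (i2.trans i3)).trans (mul_le_mul_of_nonneg_left i4 (by linarith))
    have g3 : hC q k D ≤ 4 * C1 * K2 * (1 / (1 + l * D) ^ 2) := by
      have i1 := hC_anti q0 q1' (show k ≤ 3 * m by omega) k3
      have i2 := hC_crs q0 q1' k2
      have i3 := hwin q q0 q1 (2 * m) (6 * m) (by omega) (by omega) (by omega)
      have e1 : 1/2 - q = |q - 1/2| := by rw [abs_of_nonpos (by linarith)]; ring
      rw [e1, ← hl] at i3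
      have i4 : Real.exp (-(c1 * (((2 * m : ℕ):ℝ) * l))) ≤ Real.exp (-(c1 / 3 * (l * D))) := by
        apply Real.exp_le_exp.2
        have : (D:ℝ) ≤ 6 * m := by exact_mod_cast k5
        have : l * D ≤ l * (6 * m) := mul_le_mul_of_nonneg_left this hl0
        push_cast
        nlinarith
      have i5 := hexp (l * D) (by positivity)
      have i6 : K2 / (1 + l * D) ^ 3 ≤ K2 * (1 / (1 + l * D) ^ 2) := by
        rw [mul_one_div]
        apply div_le_div_of_nonneg_left hK2.le (by positivity)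
        exact pow_le_pow_right₀ (by have : 0 ≤ l * D := by positivity
                                    linarith) (by norm_num)
      have i7 := mul_le_mul_of_nonneg_left (i4.trans (i5.trans i6)) hC1.le
      linarith
    have g4 : 1 / (1 + l * D) ^ 2 ≤ ((1 + l * r) / (1 + l * D)) ^ 2 := by
      rw [div_pow]
      apply div_le_div_of_nonneg_right _ (by positivity)
      have : 0 ≤ l * r := by positivity
      nlinarith
    calc hC q r D ≤ hC q r k * hC q k D := g1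
      _ ≤ (K * (12 * X)) * (4 * C1 * K2 * (1 / (1 + l * D) ^ 2)) :=
          mul_le_mul g2 g3 (hC_nonneg ok _ _) (by positivity)
      _ = K * 12 * (4 * C1 * K2) * (X * (1 / (1 + l * D) ^ 2)) := by ring
      _ ≤ A * (X * ((1 + l * r) / (1 + l * D)) ^ 2) := by
          apply mul_le_mul _ (mul_le_mul_of_nonneg_left g4 hX0.le) (by positivity)
            (by rw [hA]; linarith)
          rw [hA]; linarith

end Pool.Agent.H29.TG
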