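import Pool.Agent.H29.TG.SumX
import Pool.Agent.H29.TH.Lim
import Pool.Graph.R_seed8.H31R3.Kes.SigUp
import Pool.Graph.R_seed8.W424.NC.TwoUp
import Pool.Graph.R_seed8.W424.NC.ArmUp

/-!
Derivatives of the mean cluster size.
-/

set_option autoImplicit false

namespace Pool.Agent.H29.TG

open H974 hiding WW
open H12S hiding TP
open H389NS Finset Filter Topology MeasureTheory
open Pool.Agent.NH39 (dd)
open Pool.Agent.NH39.W (Dl)
open Pool.Agent.H29.TH (oo ps tayU poly_bound Ex_cq)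
open H31K (tau sigma_le t10_union)
open scoped ContDiff

/-- A path leaves the interior of the box or stays in it. -/
theorem exit_or {G : Set Edg} {a b c d : ℤ} {u v : Vtx} (hu : inR a b c d u)
    (h : Reach G u v) :
    (∃ w, inR a b c d w ∧ (w.1 = a ∨ w.1 = b ∨ w.2 = c ∨ w.2 = d) ∧
      Reach (G ∩ ↑(RE a b c d)) u w) ∨ Reach (G ∩ ↑(RE a b c d)) u v := by
  have key : ∀ w, Reach G u w → (∃ w, inR a b c d w ∧ (w.1 = a ∨ w.1 = b ∨ w.2 = c ∨ w.2 = d) ∧
      Reach (G ∩ ↑(RE a b c d)) u w) ∨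
      ((a < w.1 ∧ w.1 < b) ∧ (c < w.2 ∧ w.2 < d) ∧ Reach (G ∩ ↑(RE a b c d)) u w) := by
    intro w hw
    induction hw with
    | refl =>
      by_cases hb : u.1 = a ∨ u.1 = b ∨ u.2 = c ∨ u.2 = d
      · exact Or.inl ⟨u, hu, hb, Reach.refl _ _⟩
      · right
        obtain ⟨h1, h2⟩ := hu
        refine ⟨by omega, by omega, Reach.refl _ _⟩
    | @tail w w' _ hs ih =>
      rcases ih with ih | ⟨ih1, ih2, ih3⟩
      · exact Or.inl ih
      · obtain ⟨⟨x0, y0, bo⟩, heG, hcase⟩ := hs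
        have hmem : ((x0, y0, bo) : Edg) ∈ RE a b c d := by
          cases bo
          · simp only [src_mk, tgt_false] at hcase
            rw [mem_RE_false]
            rcases hcase with ⟨h3, h4⟩ | ⟨h3, h4⟩
            · rw [← h3] at ih1 ih2; simp only at ih1 ih2; omega
            · rw [← h4] at ih1 ih2; simp only at ih1 ih2; omega
          · simp only [src_mk, tgt_true] at hcase
            rw [mem_RE_true]
            rcases hcase with ⟨h3, h4⟩ | ⟨h3, h4⟩
            · rw [← h3] at ih1 ih2; simp only at ih1 ih2; omega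
            · rw [← h4] at ih1 ih2; simp only at ih1 ih2; omega
        have hadj : Adj (G ∩ ↑(RE a b c d)) w w' := ⟨_, ⟨heG, hmem⟩, hcase⟩
        have hr := ih3.trans hadj.reach
        have hin : inR a b c d w' := by
          unfold inR
          cases bo
          · simp only [src_mk, tgt_false] at hcase
            rcases hcase with ⟨h3, h4⟩ | ⟨h3, h4⟩
            · rw [← h3] at ih1 ih2; rw [← h4]; simp only at ih1 ih2 ⊢; omega
            · rw [← h4] at ih1 ih2; rw [← h3]; simp only at ih1 ih2 ⊢; omega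
          · simp only [src_mk, tgt_true] at hcase
            rcases hcase with ⟨h3, h4⟩ | ⟨h3, h4⟩
            · rw [← h3] at ih1 ih2; rw [← h4]; simp only at ih1 ih2 ⊢; omega
            · rw [← h4] at ih1 ih2; rw [← h3]; simp only at ih1 ih2 ⊢; omega
        by_cases hb : w'.1 = a ∨ w'.1 = b ∨ w'.2 = c ∨ w'.2 = d
        · exact Or.inl ⟨w', hin, hb, hr⟩
        · right
          obtain ⟨h1, h2⟩ := hin
          refine ⟨by omega, by omega, hr⟩
  rcases key v h with h1 | ⟨h1, h2, h3⟩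
  · exact Or.inl h1
  · exact Or.inr h3

theorem exit_box {M : ℕ} {x : Vtx} {F : Finset Edg} (h : Reach (↑F : Set Edg) (0, 0) x) :
    TP x (F ∩ boxE M) ∨ Arm M F := by
  rcases exit_or (G := (↑F : Set Edg)) (a := -M) (b := M) (c := -M) (d := M) (u := (0, 0))
    (v := x) (by unfold inR; simp) h with ⟨w, k1, k2, k3⟩ | h1
  · exact Or.inr ⟨w, ⟨k1, k2⟩, k3⟩
  · left
    unfold TP
    rw [Finset.coe_inter]
    exact h1

/-- The mean cluster size as a real function of a real parameter. -/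
noncomputable def sg (p : ℝ) : ℝ := (sigma (Set.projIcc 0 1 zero_le_one p)).toReal

theorem sg_of (p : unitInterval) : sg p = (sigma p).toReal := by
  unfold sg
  rw [Set.projIcc_val]

theorem sigma_fin {P : unitInterval} (hP : (P:ℝ) < 1/2) : sigma P ≠ ⊤ := by
  obtain ⟨C, hC, h⟩ := Pool.Agent.W424.NC.sigma_upper
  exact ne_top_of_le_ne_top ENNReal.ofReal_ne_top (h P hP)

theorem sg_ge {P : unitInterval} (hP : (P:ℝ) < 1/2) (S : Finset Edg) (B : Finset Vtx) :
    ∑ x ∈ B, Pr (fun _ => (P:ℝ)) S (TP x) ≤ (sigma P).toReal := by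
  have h := sigma_ge P S B
  rwa [ENNReal.ofReal_le_iff_le_toReal (sigma_fin hP)] at h

theorem tp_sub {S S' : Finset Edg} (h : S ⊆ S') (x : Vtx) :
    {om | TP x (FF S om)} ⊆ {om | TP x (FF S' om)} := by
  intro om hom
  have h1 : Reach (↑(FF S om) : Set Edg) (0, 0) x := hom
  show Reach (↑(FF S' om) : Set Edg) (0, 0) x
  rw [FF_coe] at h1 ⊢
  exact h1.mono (Set.inter_subset_inter_right _ (by exact_mod_cast h))

theorem pr_tp_mono (P : unitInterval) {S S' : Finset Edg} (h : S ⊆ S') (x : Vtx) :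
    Pr (fun _ => (P:ℝ)) S (TP x) ≤ Pr (fun _ => (P:ℝ)) S' (TP x) := by
  rw [← law_event, ← law_event]
  exact measureReal_mono (tp_sub h x)

theorem tau_lim (P : unitInterval) (x : Vtx) :
    Tendsto (fun n => Pr (fun _ => (P:ℝ)) (boxE n) (TP x)) atTop (𝓝 (tau P x)) := by
  have h1 : Tendsto (fun n => (bondLaw P) {om | TP x (FF (boxE n) om)}) atTop
      (𝓝 ((bondLaw P) (⋃ n, {om | TP x (FF (boxE n) om)}))) := by
    apply tendsto_measure_iUnion_atTop
    intro n m hnm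
    exact tp_sub (boxE_mono hnm) x
  rw [← t10_union] at h1
  have h2 : Tendsto (fun n => (bondLaw P).real {om | TP x (FF (boxE n) om)}) atTop
      (𝓝 ((bondLaw P).real {om | x ∈ cluster0 om})) :=
    (ENNReal.tendsto_toReal (measure_ne_top _ _)).comp h1
  refine h2.congr (fun n => ?_)
  exact law_event P (boxE n) (TP x)

/-- The sum over the box. -/
noncomputable def aS (y : ℝ) (m : ℕ) : ℝ :=
  ∑ x ∈ XB m, Pr (fun _ => y) (boxE (3 * (m + 1))) (TP x)

theorem aS_mono (P : unitInterval) : Monotone (aS P) := by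
  intro m n hmn
  unfold aS
  calc ∑ x ∈ XB m, Pr (fun _ => (P:ℝ)) (boxE (3 * (m + 1))) (TP x) ≤
        ∑ x ∈ XB m, Pr (fun _ => (P:ℝ)) (boxE (3 * (n + 1))) (TP x) :=
        Finset.sum_le_sum (fun x _ => pr_tp_mono P (boxE_mono (by omega)) x)
    _ ≤ _ := Finset.sum_le_sum_of_subset_of_nonneg (XB_mono hmn)
        (fun x _ _ => Pr_nonneg (okq P.2.1 P.2.2) _ _)

theorem aS_tendsto {P : unitInterval} (hP : (P:ℝ) < 1/2) :
    Tendsto (aS P) atTop (𝓝 (sigma P).toReal) := by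
  have hb : BddAbove (Set.range (aS P)) := ⟨(sigma P).toReal, by
    rintro _ ⟨m, rfl⟩
    exact sg_ge hP _ _⟩
  have ht := tendsto_atTop_ciSup (aS_mono P) hb
  have e : (⨆ m, aS P m) = (sigma P).toReal := by
    apply le_antisymm
    · exact ciSup_le (fun m => sg_ge hP _ _)
    · have h0 : 0 ≤ ⨆ m, aS P m := le_trans
        (Finset.sum_nonneg (fun x _ => Pr_nonneg (okq P.2.1 P.2.2) _ _)) (le_ciSup hb 0)
      have h1 : sigma P ≤ ENNReal.ofReal (⨆ m, aS P m) := by
        refine (sigma_le P).trans ?_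
        rw [ENNReal.tsum_eq_iSup_sum]
        apply iSup_le
        intro B
        rw [← ENNReal.ofReal_sum_of_nonneg (f := fun x => tau P x) (fun x _ => measureReal_nonneg)]
        apply ENNReal.ofReal_le_ofReal
        have h2 : Tendsto (fun n => ∑ x ∈ B, Pr (fun _ => (P:ℝ)) (boxE n) (TP x)) atTop
            (𝓝 (∑ x ∈ B, tau P x)) := tendsto_finsetSum _ (fun x _ => tau_lim P x)
        apply le_of_tendsto h2
        obtain ⟨N, hN⟩ : ∃ N : ℕ, N = B.sup (fun x => x.1.natAbs + x.2.natAbs) := ⟨_, rfl⟩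
        filter_upwards [eventually_ge_atTop N] with n hn
        have hB : B ⊆ XB n := by
          intro x hx
          have h3 : x.1.natAbs + x.2.natAbs ≤ N := by
            rw [hN]
            exact Finset.le_sup (f := fun x : Vtx => x.1.natAbs + x.2.natAbs) hx
          rw [mem_XB]
          omega
        calc ∑ x ∈ B, Pr (fun _ => (P:ℝ)) (boxE n) (TP x) ≤
              ∑ x ∈ B, Pr (fun _ => (P:ℝ)) (boxE (3 * (n + 1))) (TP x) :=
              Finset.sum_le_sum (fun x _ => pr_tp_mono P (boxE_mono (by omega)) x)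
          _ ≤ aS P n := Finset.sum_le_sum_of_subset_of_nonneg hB
              (fun x _ _ => Pr_nonneg (okq P.2.1 P.2.2) _ _)
          _ ≤ _ := le_ciSup hb n
      have h2 := ENNReal.toReal_mono ENNReal.ofReal_ne_top h1
      rwa [ENNReal.toReal_ofReal h0] at h2
  rwa [e] at ht

theorem TP_incr (S : Finset Edg) (x : Vtx) : IncrE S (TP x) := by
  intro F G h _ hF
  exact Reach.mono (by exact_mod_cast h) hF

theorem fT_eq {L : ℕ} {x : Vtx} {F : Finset Edg} (h : F ⊆ boxE L) : fT L x F = ind (TP x F) := by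
  unfold fT TP
  have e : (↑F : Set Edg) ∩ ↑(boxE L) = ↑F := Set.inter_eq_left.2 (by exact_mod_cast h)
  rw [e]

theorem gT_ge {p y : ℝ} {m M L : ℕ} (hy : 0 ≤ y) (hyp : y ≤ p) (hp : p ≤ 1) (h : M ≤ L) :
    ∑ x ∈ XB m, Pr (fun _ => y) (boxE L) (TP x) ≤ gT p m M L y := by
  rw [gT_eq h]
  apply Finset.sum_le_sum
  intro x _
  have hok : Ok (fun e : Edg => if e ∈ boxE M then p + (y - p) else p) := by
    intro e
    beta_reduce
    split_ifs
    · exact ⟨by linarith, by linarith⟩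
    · exact ⟨by linarith, by linarith⟩
  have e1 : Ex (fun e => if e ∈ boxE M then p + (y - p) else p) (boxE L) (fT L x) =
      Pr (fun e => if e ∈ boxE M then p + (y - p) else p) (boxE L) (TP x) :=
    Ex_congr (fun F hF => fT_eq hF)
  rw [e1]
  refine Pr_mono_param (okq hy (hyp.trans hp)) hok ?_ (TP_incr _ _)
  intro e
  split_ifs
  · linarith
  · exact hyp

theorem gT_le {p y : ℝ} {m M L : ℕ} (hy : 0 ≤ y) (hyp : y ≤ p) (hp : p ≤ 1) (h : M ≤ L) :
    gT p m M L y ≤ ∑ x ∈ XB m, Pr (fun _ => y) (boxE M) (TP x) +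
      (((2 * m + 1) ^ 2 : ℕ) : ℝ) * arm y M := by
  have hok : Ok (fun e : Edg => if e ∈ boxE M then p + (y - p) else p) := by
    intro e
    beta_reduce
    split_ifs
    · exact ⟨by linarith, by linarith⟩
    · exact ⟨by linarith, by linarith⟩
  have h1 : ∀ x ∈ XB m, Ex (fun e => if e ∈ boxE M then p + (y - p) else p) (boxE L) (fT L x) ≤
      Pr (fun _ => y) (boxE M) (TP x) + arm y M := by
    intro x _
    have e1 : Ex (fun e => if e ∈ boxE M then p + (y - p) else p) (boxE L) (fT L x) =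
        Pr (fun e => if e ∈ boxE M then p + (y - p) else p) (boxE L) (TP x) :=
      Ex_congr (fun F hF => fT_eq hF)
    rw [e1]
    have h2 : Pr (fun e : Edg => if e ∈ boxE M then p + (y - p) else p) (boxE L) (TP x) ≤
        Pr (fun e : Edg => if e ∈ boxE M then p + (y - p) else p) (boxE L)
          (fun F => TP x (F ∩ boxE M) ∨ Arm M F) :=
      Pr_mono hok (fun F _ hF => exit_box hF)
    refine h2.trans ((Pr_or_le hok _ _ _).trans ?_)
    have h3 : Pr (fun e : Edg => if e ∈ boxE M then p + (y - p) else p) (boxE L)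
        (fun F => TP x (F ∩ boxE M)) =
        Pr (fun e : Edg => if e ∈ boxE M then p + (y - p) else p) (boxE M)
        (fun F => TP x (F ∩ boxE M)) :=
      Pr_local (S := boxE L) (S' := boxE M) (boxE_mono h) (fun F _ => by
        rw [Finset.inter_assoc, Finset.inter_self])
    have h4 : Pr (fun e : Edg => if e ∈ boxE M then p + (y - p) else p) (boxE L) (Arm M) =
        Pr (fun e : Edg => if e ∈ boxE M then p + (y - p) else p) (boxE M) (Arm M) :=
      Pr_local (S := boxE L) (S' := boxE M) (A := Arm M) (boxE_mono h)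
        (fun F _ => Arm_local (n := M) (F := F) (S := boxE M) (Finset.Subset.refl (boxE M)))
    have h5 : Pr (fun e : Edg => if e ∈ boxE M then p + (y - p) else p) (boxE M)
        (fun F => TP x (F ∩ boxE M)) = Pr (fun _ => y) (boxE M) (TP x) := by
      have e2 : Pr (fun e : Edg => if e ∈ boxE M then p + (y - p) else p) (boxE M)
          (fun F => TP x (F ∩ boxE M)) =
          Pr (fun _ => y) (boxE M) (fun F => TP x (F ∩ boxE M)) :=
        Ex_cq (fun e he => by rw [if_pos he]; ring) _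
      rw [e2]
      exact Pr_congr (fun F hF => by rw [Finset.inter_eq_left.2 hF])
    have h6 : Pr (fun e : Edg => if e ∈ boxE M then p + (y - p) else p) (boxE M) (Arm M) =
        arm y M := by
      unfold arm
      exact Ex_cq (fun e he => by rw [if_pos he]; ring) _
    rw [h3, h4, h5, h6]
  rw [gT_eq h]
  refine (Finset.sum_le_sum h1).trans (le_of_eq ?_)
  rw [Finset.sum_add_distrib, Finset.sum_const, nsmul_eq_mul, XB_card]

theorem arm_poly {y : ℝ} (h0 : 0 ≤ y) (h1 : y < 1/2) :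
    Tendsto (fun m : ℕ => (((2 * m + 1) ^ 2 : ℕ) : ℝ) * arm y (m + 1)) atTop (𝓝 0) := by
  obtain ⟨c, C, hc, hC, ha⟩ := Pool.Agent.W424.NC.arm_upper
  obtain ⟨t, ht⟩ : ∃ t : ℝ, t = c * (1/2 - y) ^ (4/3 : ℝ) := ⟨_, rfl⟩
  have ht0 : 0 < t := by
    have : 0 < 1/2 - y := by linarith
    rw [ht]; positivity
  have h2 : Tendsto (fun m : ℕ => t * ((m:ℝ) + 1)) atTop atTop := by
    apply Tendsto.const_mul_atTop ht0
    exact tendsto_atTop_add_const_right _ _ tendsto_natCast_atTop_atTop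
  have h3 := (Real.tendsto_pow_mul_exp_neg_atTop_nhds_zero 2).comp h2
  have h4 := h3.const_mul (4 * C / t ^ 2)
  rw [mul_zero] at h4
  refine squeeze_zero (fun m => ?_) (fun m => ?_) h4
  · have := arm_nonneg h0 (by linarith : y ≤ 1) (m + 1)
    positivity
  · have h5 := ha y h0 h1.le (m + 1) (by omega)
    have hm : (1:ℝ) ≤ ((m + 1 : ℕ) : ℝ) := by exact_mod_cast (by omega : 1 ≤ m + 1)
    have h6 : (((m + 1 : ℕ) : ℝ)) ^ (-(5/48) : ℝ) ≤ 1 :=
      Real.rpow_le_one_of_one_le_of_nonpos hm (by norm_num)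
    have h7 : arm y (m + 1) ≤ C * Real.exp (-(t * ((m:ℝ) + 1))) := by
      refine h5.trans ?_
      have e : -(c * (((m + 1 : ℕ) : ℝ) * (1/2 - y) ^ (4/3 : ℝ))) = -(t * ((m:ℝ) + 1)) := by
        rw [ht]; push_cast; ring
      rw [e]
      apply mul_le_mul_of_nonneg_right _ (Real.exp_pos _).le
      exact mul_le_of_le_one_right hC.le h6
    have h8 : (((2 * m + 1) ^ 2 : ℕ) : ℝ) ≤ 4 * ((m:ℝ) + 1) ^ 2 := by
      push_cast
      have : (0:ℝ) ≤ m := by positivity
      nlinarith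
    have h9 := arm_nonneg h0 (by linarith : y ≤ 1) (m + 1)
    calc (((2 * m + 1) ^ 2 : ℕ) : ℝ) * arm y (m + 1)
        ≤ (4 * ((m:ℝ) + 1) ^ 2) * (C * Real.exp (-(t * ((m:ℝ) + 1)))) :=
          mul_le_mul h8 h7 h9 (by positivity)
      _ = 4 * C / t ^ 2 * ((t * ((m:ℝ) + 1)) ^ 2 * Real.exp (-(t * ((m:ℝ) + 1)))) := by
          field_simp

/-- The derivatives, below `p`. -/
theorem der_localT : ∃ B : ℝ, 1 ≤ B ∧ ∀ p : ℝ, 0 ≤ p → p < 1/2 →
    ContDiffOn ℝ ∞ sg (Set.Ioo (max 0 (p - (1/2 - p) / (2 * B))) p) ∧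
    ∀ k : ℕ, ∀ x ∈ Set.Ioo (max 0 (p - (1/2 - p) / (2 * B))) p, |iteratedDeriv k sg x| ≤
      k.factorial * (2 / ((1/2 - p) / B)) ^ k * (B * (1/2 - p) ^ (-(43/18) : ℝ)) := by
  obtain ⟨B, hB, hm⟩ := mixT
  refine ⟨B, hB, ?_⟩
  intro p hp0 hp1
  rcases hp0.eq_or_lt with rfl | hp0'
  · have e : Set.Ioo (max 0 ((0:ℝ) - (1/2 - 0) / (2 * B))) 0 = ∅ :=
      Set.Ioo_eq_empty (by simp)
    rw [e]
    exact ⟨contDiffOn_empty, fun k x hx => absurd hx (Set.notMem_empty x)⟩
  have hp2 : p ≤ 1 := by linarith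
  have hs : 0 < 1/2 - p := by linarith
  have hB0 : 0 < B := by linarith
  obtain ⟨R, hR⟩ : ∃ R : ℝ, R = (1/2 - p) / B := ⟨_, rfl⟩
  have hR0 : 0 < R := by rw [hR]; positivity
  have eR : (1/2 - p) / (2 * B) = R / 2 := by
    rw [hR, div_div, mul_comm]
  rw [eR, ← hR]
  obtain ⟨u, hu⟩ : ∃ u : ℝ, u = max 0 (p - R / 2) := ⟨_, rfl⟩
  have hu0 : 0 ≤ u := by rw [hu]; exact le_max_left _ _
  have hu1 : p - R / 2 ≤ u := by rw [hu]; exact le_max_right _ _
  have hu2 : u < p := by rw [hu]; exact max_lt hp0' (by linarith)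
  rw [← hu]
  obtain ⟨f, hf⟩ : ∃ f : ℕ → ℝ → ℝ, f = fun m x => gT p m (m + 1) (3 * (m + 1)) x := ⟨_, rfl⟩
  have hfs : ∀ m, ContDiff ℝ ∞ (f m) := by
    intro m
    rw [hf]
    unfold gT
    fun_prop
  have hfl : ∀ x ∈ Set.Ioo u p, Tendsto (fun m => f m x) atTop (𝓝 (sg x)) := by
    intro x hx
    have hx0 : 0 ≤ x := by have := hx.1; linarith
    have hx1 : x ≤ 1 := hx.2.le.trans hp2
    have hxh : x < 1/2 := hx.2.trans hp1
    obtain ⟨P, hP⟩ : ∃ P : unitInterval, (P : ℝ) = x := ⟨⟨x, hx0, hx1⟩, rfl⟩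
    have hPh : (P:ℝ) < 1/2 := by rw [hP]; exact hxh
    have ha := aS_tendsto hPh
    have e : sg x = (sigma P).toReal := by rw [← hP, sg_of]
    rw [hP, ← e] at ha
    have hb : Tendsto (fun m : ℕ => sg x + (((2 * m + 1) ^ 2 : ℕ) : ℝ) * arm x (m + 1)) atTop
        (𝓝 (sg x)) := by
      have := (arm_poly hx0 hxh).const_add (sg x)
      rwa [add_zero] at this
    refine tendsto_of_tendsto_of_tendsto_of_le_of_le ha hb ?_ ?_
    · intro m
      rw [hf]
      exact gT_ge (M := m + 1) (L := 3 * (m + 1)) hx0 hx.2.le hp2 (by omega)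
    · intro m
      rw [hf]
      have h1 := gT_le (m := m) (M := m + 1) (L := 3 * (m + 1)) hx0 hx.2.le hp2 (by omega)
      refine h1.trans ?_
      have h2 := sg_ge hPh (boxE (m + 1)) (XB m)
      rw [← e, hP] at h2
      exact add_le_add_left h2 _
  have hfb : ∀ k m, ∀ x ∈ Set.Ioo u p, |iteratedDeriv k (f m) x| ≤
      k.factorial * (2 / R) ^ k * (B * (1/2 - p) ^ (-(43/18) : ℝ)) := by
    intro k m x hx
    have h1 := hm p hp0 hp1 m (m + 1) (3 * (m + 1)) (by omega) le_rfl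
    rw [← hR] at h1
    have h2 := poly_bound (boxE (m + 1)).powerset (fun G => G.card)
      (fun G => ∑ x ∈ XB m, Ex (fun _ => p) (boxE (3 * (m + 1))) (Dl (fT (3 * (m + 1)) x) G))
      hR0 h1 k (w := x - p) (by rw [abs_le]; constructor <;> linarith [hx.1, hx.2])
    have h3 : iteratedDeriv k (f m) x = iteratedDeriv k (fun w => ∑ G ∈ (boxE (m + 1)).powerset,
        w ^ G.card * ∑ x ∈ XB m, Ex (fun _ => p) (boxE (3 * (m + 1)))
          (Dl (fT (3 * (m + 1)) x) G)) (x - p) := by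
      rw [hf]
      unfold gT
      exact congrFun (iteratedDeriv_comp_sub_const k (fun w => ∑ G ∈ (boxE (m + 1)).powerset,
        w ^ G.card * ∑ x ∈ XB m, Ex (fun _ => p) (boxE (3 * (m + 1)))
          (Dl (fT (3 * (m + 1)) x) G)) p) x
    rw [h3]
    exact h2
  have hlim := Pool.Agent.NH39.W.lim f sg u p
    (fun k => k.factorial * (2 / R) ^ k * (B * (1/2 - p) ^ (-(43/18) : ℝ))) hu2 hfs hfl
    (fun k _ m x hx => hfb k m x hx)
  refine ⟨hlim.1, fun k x hx => ?_⟩
  have t1 := (hlim.2 k x hx).abs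
  exact le_of_tendsto' t1 (fun m => hfb k m x hx)

/-- All the derivatives of the mean cluster size. -/
theorem sg_der : ∃ C : ℝ, 1 ≤ C ∧ ∀ x : ℝ, 0 < x → x < 1/2 → ContDiffAt ℝ ∞ sg x ∧
    ∀ k : ℕ, |iteratedDeriv k sg x| ≤
      C ^ (k + 1) * k.factorial * (1/2 - x) ^ (-(43:ℝ)/18 - k) := by
  obtain ⟨B, hB, hd⟩ := der_localT
  have hB0 : 0 < B := by linarith
  refine ⟨8 * B, by linarith, ?_⟩
  intro x hx1 hx2
  obtain ⟨s, hs⟩ : ∃ s : ℝ, s = 1/2 - x := ⟨_, rfl⟩
  have hs0 : 0 < s := by rw [hs]; linarith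
  obtain ⟨p, hp⟩ : ∃ p : ℝ, p = x + s / (4 * B) := ⟨_, rfl⟩
  have hsB : 0 < s / (4 * B) := by positivity
  have p1 : x < p := by rw [hp]; linarith
  have hsB2 : s / (4 * B) ≤ s / 4 := div_le_div_of_nonneg_left hs0.le (by norm_num) (by linarith)
  have hu1 : 3 / 4 * s ≤ 1/2 - p := by rw [hp]; linarith
  have p2 : p < 1/2 := by nlinarith
  obtain ⟨d1, d2⟩ := hd p (by linarith) p2
  have hxI : x ∈ Set.Ioo (max 0 (p - (1/2 - p) / (2 * B))) p := by
    refine ⟨max_lt hx1 ?_, p1⟩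
    have h1 : (3 / 4 * s) / (2 * B) ≤ (1/2 - p) / (2 * B) :=
      div_le_div_of_nonneg_right hu1 (by positivity)
    have h2 : (3 / 4 * s) / (2 * B) = 3 / 2 * (s / (4 * B)) := by field_simp
    linarith
  refine ⟨d1.contDiffAt (Ioo_mem_nhds hxI.1 hxI.2), fun k => ?_⟩
  refine (d2 k x hxI).trans ?_
  rw [← hs, Real.rpow_sub_natCast hs0.ne']
  obtain ⟨u, hu⟩ : ∃ u : ℝ, u = 1/2 - p := ⟨_, rfl⟩
  rw [← hu] at hu1 ⊢
  have hu0 : 0 < u := by linarith
  have e1 : (2 / (u / B)) ^ k ≤ (8 * B) ^ k / s ^ k := by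
    rw [← div_pow]
    apply pow_le_pow_left₀ (by positivity)
    rw [div_div_eq_mul_div, div_le_div_iff₀ hu0 hs0]
    nlinarith
  have e2 : u ^ (-(43/18) : ℝ) ≤ 8 * s ^ (-(43/18) : ℝ) := by
    have h1 : u ^ (-(43/18) : ℝ) ≤ (s / 2) ^ (-(43/18) : ℝ) :=
      Real.rpow_le_rpow_of_nonpos (by positivity) (by linarith) (by norm_num)
    refine h1.trans ?_
    rw [div_eq_mul_inv, mul_comm, Real.mul_rpow (by norm_num) hs0.le]
    apply mul_le_mul_of_nonneg_right _ (by positivity)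
    rw [Real.inv_rpow (by norm_num), ← Real.rpow_neg (by norm_num), neg_neg]
    have := Real.rpow_le_rpow_of_exponent_le (show (1:ℝ) ≤ 2 by norm_num)
      (show (43/18 : ℝ) ≤ 3 by norm_num)
    refine this.trans ?_
    norm_num
  have e3 : (-(43:ℝ)/18) = (-(43/18) : ℝ) := by ring
  rw [e3]
  calc (k.factorial : ℝ) * (2 / (u / B)) ^ k * (B * u ^ (-(43/18) : ℝ))
      ≤ (k.factorial : ℝ) * ((8 * B) ^ k / s ^ k) * (B * (8 * s ^ (-(43/18) : ℝ))) := by
        apply mul_le_mul _ _ (by positivity) (by positivity)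
        · exact mul_le_mul_of_nonneg_left e1 (by positivity)
        · exact mul_le_mul_of_nonneg_left e2 hB0.le
    _ = _ := by rw [pow_succ]; ring

end Pool.Agent.H29.TG
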