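import Pool.Agent.H29.TG.AnnT
import Pool.Agent.H29.TH.Mix

/-!
The bound for sets of edges which matter together for the connection of two points, in a box, and
the sum over all the sets.
-/

set_option autoImplicit false

namespace Pool.Agent.H29.TG

open H974 hiding WW
open H12S H389NS Finset
open Pool.Agent.NH39 (dd sum_dist)
open Pool.Agent.NH39.W (Dl wt WW WW_one wt_one wt_pos wt_anti wt_doub wt_ratio psi psi_le psi_nn
  sum1d lam_nonneg lam_le_one)
open Pool.Agent.H29.TH (oo ps dd_self dd_comm dd_tri ann_dd blk_sub_box congr_ann A4_local Cr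
  pr_Cr Wf wf_wt mem_boxE_dd dd_box oo_mem eight_le_WW Ex_Dl_le)

/-- The constant of the doubling property. -/
noncomputable def W3 : ℝ := 512 * WW

theorem W3_one : 1 ≤ W3 := by
  have := WW_one
  unfold W3
  linarith

theorem vs_one (q : ℝ) : vs q 1 = 1 := by
  have := lam_nonneg q
  unfold vs
  rw [Nat.cast_one, Real.one_rpow, mul_one, div_self (by positivity), one_pow, one_mul]

theorem vs_anti (q : ℝ) {r s : ℕ} (hr : 1 ≤ r) (hs : r ≤ s) : vs q s ≤ vs q r := by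
  have hl := lam_nonneg q
  have hr0 : (0:ℝ) < r := by exact_mod_cast hr
  have hrs : (r:ℝ) ≤ s := by exact_mod_cast hs
  unfold vs
  apply mul_le_mul
  · exact Real.rpow_le_rpow_of_nonpos hr0 hrs (by norm_num)
  · apply pow_le_pow_left₀ (by positivity)
    apply div_le_div_of_nonneg_left (by positivity) (by positivity)
    have := mul_le_mul_of_nonneg_left hrs hl
    linarith
  · positivity
  · positivity

theorem vs_poly (q : ℝ) {r s M : ℕ} (hr : 1 ≤ r) (hs : r ≤ s) (hM : 1 ≤ M) (h : s ≤ M * r) :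
    vs q r ≤ (M:ℝ) ^ 3 * vs q s := by
  have hl := lam_nonneg q
  have hr0 : (0:ℝ) < r := by exact_mod_cast hr
  have hs0 : (0:ℝ) < s := by exact_mod_cast (by omega : 0 < s)
  have hM0 : (0:ℝ) < M := by exact_mod_cast hM
  have hM1 : (1:ℝ) ≤ M := by exact_mod_cast hM
  have hrs : (r:ℝ) ≤ s := by exact_mod_cast hs
  have hMr : (s:ℝ) ≤ M * r := by exact_mod_cast h
  have h1 := vs_ratio (q := q) hr hs
  have v1 := vs_pos q hr
  have e1 : 1 / (M:ℝ) ≤ ((r:ℝ) / s) ^ (5/48 : ℝ) := by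
    have e2 : 1 / (M:ℝ) ≤ r / s := by rw [div_le_div_iff₀ hM0 hs0]; linarith
    have e3 : (r:ℝ) / s ≤ (r / s) ^ (5/48 : ℝ) := by
      have := Real.rpow_le_rpow_of_exponent_ge (x := (r:ℝ) / s) (by positivity)
        ((div_le_one hs0).2 hrs) (show (5/48 : ℝ) ≤ 1 by norm_num)
      rwa [Real.rpow_one] at this
    exact e2.trans e3
  have e4 : 1 / (M:ℝ) ≤ (1 + |q - 1/2| ^ (4/3 : ℝ) * r) / (1 + |q - 1/2| ^ (4/3 : ℝ) * s) := by
    rw [div_le_div_iff₀ hM0 (by positivity)]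
    have := mul_le_mul_of_nonneg_left hMr hl
    nlinarith
  have e5 : (1 / (M:ℝ)) ^ 2 ≤
      ((1 + |q - 1/2| ^ (4/3 : ℝ) * r) / (1 + |q - 1/2| ^ (4/3 : ℝ) * s)) ^ 2 :=
    pow_le_pow_left₀ (by positivity) e4 2
  have e6 : 1 / (M:ℝ) * (1 / (M:ℝ)) ^ 2 ≤ vs q s / vs q r := by
    rw [h1]
    exact mul_le_mul e1 e5 (by positivity) (by positivity)
  rw [le_div_iff₀ v1] at e6
  have e7 : (M:ℝ) ^ 3 * (1 / (M:ℝ) * (1 / (M:ℝ)) ^ 2 * vs q r) = vs q r := by
    field_simp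
  rw [← e7]
  exact mul_le_mul_of_nonneg_left e6 (by positivity)

theorem wf_wt3 (q : ℝ) : Wf (wt q) (wt q) W3 where
  one := wt_one q
  pos := fun _ hr => wt_pos q hr
  mono := fun _ _ hr hs => wt_anti q hr hs
  dbl := fun r s hr hs h8 => by
    have h1 := wt_doub q hr hs h8
    have h2 := wt_pos q (hr.trans hs)
    have h3 := WW_one
    have h4 : WW ≤ W3 := by unfold W3; linarith
    exact h1.trans (mul_le_mul_of_nonneg_right h4 h2.le)
  rel := fun r s hr hs => by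
    have h1 := W3_one
    have h2 := mul_pos (wt_pos q hr) (wt_pos q (hr.trans hs))
    nlinarith

theorem wf_vs (q : ℝ) : Wf (wt q) (vs q) W3 where
  one := vs_one q
  pos := fun _ hr => vs_pos q hr
  mono := fun _ _ hr hs => vs_anti q hr hs
  dbl := fun r s hr hs h8 => by
    have h3 := vs_poly q hr hs (by norm_num : 1 ≤ 8) h8
    have h4 := WW_one
    have h5 := vs_pos q (hr.trans hs)
    have h6 : (8:ℝ) ^ 3 ≤ W3 := by unfold W3; linarith
    push_cast at h3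
    exact h3.trans (mul_le_mul_of_nonneg_right h6 h5.le)
  rel := fun r s hr hs => by
    have hr0 : (0:ℝ) < r := by exact_mod_cast hr
    have hs0 : (0:ℝ) < s := by exact_mod_cast (by omega : 0 < s)
    have hrs : (r:ℝ) ≤ s := by exact_mod_cast hs
    have hW := W3_one
    have w1 := wt_pos q hr
    have v1 := vs_pos q hr
    have v2 := vs_pos q (hr.trans hs)
    have hl := lam_nonneg q
    have hx1 : (r:ℝ) / s ≤ 1 := (div_le_one hs0).2 hrs
    obtain ⟨X, hX⟩ : ∃ X : ℝ, X = (r:ℝ) / s := ⟨_, rfl⟩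
    obtain ⟨Y, hY⟩ : ∃ Y : ℝ, Y = (1 + |q - 1/2| ^ (4/3 : ℝ) * r) /
      (1 + |q - 1/2| ^ (4/3 : ℝ) * s) := ⟨_, rfl⟩
    have h3 := wt_ratio (q := q) hr hs
    have h4 := vs_ratio (q := q) hr hs
    rw [← hX, ← hY] at h3 h4
    rw [← hX] at hx1
    have hX0 : 0 < X := by rw [hX]; positivity
    have hY0 : 0 < Y := by rw [hY]; positivity
    -- `X ≤ Y`
    have hXY : X ≤ Y := by
      rw [hX, hY, div_le_div_iff₀ hs0 (by positivity)]
      nlinarith
    have h5 : X ^ (5/4 : ℝ) ≤ X ^ (5/48 : ℝ) * X := by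
      have e : X ^ (5/48 : ℝ) * X = X ^ (53/48 : ℝ) := by
        nth_rewrite 2 [← Real.rpow_one X]
        rw [← Real.rpow_add hX0]
        norm_num
      rw [e]
      exact Real.rpow_le_rpow_of_exponent_ge hX0 hx1 (by norm_num)
    have h7 : wt q s / wt q r ≤ vs q s / vs q r := by
      rw [h3, h4]
      have hA : 0 < X ^ (5/48 : ℝ) := by positivity
      calc X ^ (5/4 : ℝ) * Y ≤ (X ^ (5/48 : ℝ) * X) * Y := mul_le_mul_of_nonneg_right h5 hY0.le
        _ ≤ (X ^ (5/48 : ℝ) * Y) * Y :=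
            mul_le_mul_of_nonneg_right (mul_le_mul_of_nonneg_left hXY hA.le) hY0.le
        _ = _ := by ring
    rw [div_le_div_iff₀ w1 v1] at h7
    have := mul_pos w1 v2
    nlinarith

theorem ro_ps (x : Vtx) : ps (ro x) = x := rfl

theorem kset : ∃ C : ℝ, 1 ≤ C ∧ ∀ p : ℝ, 0 ≤ p → p ≤ 1/2 → ∀ M L : ℕ, 1 ≤ M → 3 * M ≤ L →
    ∀ x : Vtx, ro x ∈ boxE M →
    KS dd (boxE M) (boxE L) oo (ro x) (2 * M) p (wt p) (vs p) (Dsr L x) C W3 := by
  obtain ⟨C1, hC1, hpl⟩ := Pool.Agent.NH39.W.pl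
  obtain ⟨C2, hC2, hba⟩ := hC_le
  refine ⟨max C1 C2, le_max_of_le_left hC1, ?_⟩
  intro p hp0 hp1 M L hM hL x hx
  have hp2 : p ≤ 1 := by linarith
  have ok := okq hp0 hp2
  have sub : ∀ S : Finset Edg, ∀ T' ⊆ S, S \ {oo, ro x} ⊆ T' → ∀ y ∈ S, y ≠ oo → y ≠ ro x →
      y ∈ T' := by
    intro S T' _ h2 y hy h3 h4
    apply h2
    rw [mem_sdiff, mem_insert, mem_singleton, not_or]
    exact ⟨hy, h3, h4⟩
  refine ⟨dd_self, dd_comm, fun a b c => dd_tri a b c, by omega, hp0, hp2, wf_wt3 p,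
    wf_vs p, ?_, ?_, ?_, le_max_of_le_left hC1, W3_one⟩
  · intro y hy r D hr hrD hDN
    have hy' := mem_boxE_dd hy
    have b1 : |y.1| + D ≤ L := by omega
    have b2 : |y.2.1| + D ≤ L := by omega
    refine ⟨fun F => A4a (ps y) r D (↑F : Set Edg), fun F F' h => A4_local h, ?_, ?_⟩
    · intro S F _ _ hyS _ _ hS h0 h0' hD
      obtain ⟨T', t1, t2, t3⟩ := hD
      have n1 : y ≠ oo := by
        intro h
        rw [h, dd_self] at h0
        omega
      have n2 : y ≠ ro x := by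
        intro h
        rw [h, dd_self] at h0'
        omega
      exact dl_w hr hrD b1 b2 h0 h0' (sub S T' t1 t2 y hyS n1 n2)
        (fun z hz => hS z (t1 hz)) t3
    · have h1 := Pool.Agent.NH39.NC.le_hQ (d := r) ok (blk_sub_box b1 b2)
      have h2 := hpl p hp0 hp2 r D hr hrD
      refine (h1.trans h2).trans (mul_le_mul_of_nonneg_right (le_max_left _ _) ?_)
      have := wt_pos p hr
      have := wt_pos p (hr.trans hrD)
      positivity
  · intro r D hr hrD hDN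
    refine ⟨CrC (0, 0) r D, fun F F' h => CrC_local (e := oo) h, ?_, ?_⟩
    · intro S F _ _ _ _ hS h0 hD
      obtain ⟨T', t1, t2, t3⟩ := hD
      exact dl_v (e := oo) (e' := ro x) hrD (Or.inl ⟨rfl, rfl⟩) h0 (fun y hy => hS y (t1 hy)) t3
    · have hsub : blk (0, 0) D ⊆ boxE L := by
        rw [S4C_blk0]
        exact boxE_mono (by omega)
      refine ((le_hC ok hsub).trans (hba p hp0 hp1 r D hr hrD)).trans
        (mul_le_mul_of_nonneg_right (le_max_right _ _) ?_)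
      have := vs_pos p hr
      have := vs_pos p (hr.trans hrD)
      positivity
  · intro r D hr hrD hDN
    have hx' := mem_boxE_dd hx
    have b1 : |(ro x).1| + D ≤ L := by omega
    have b2 : |(ro x).2.1| + D ≤ L := by omega
    refine ⟨CrC x r D, fun F F' h => CrC_local (e := ro x) h, ?_, ?_⟩
    · intro S F _ _ _ _ hS h0 hD
      obtain ⟨T', t1, t2, t3⟩ := hD
      exact dl_v (e := ro x) (e' := oo) hrD (Or.inr ⟨rfl, rfl⟩) h0 (fun y hy => hS y (t1 hy)) t3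
    · refine ((le_hC ok (blk_sub_box b1 b2)).trans (hba p hp0 hp1 r D hr hrD)).trans
        (mul_le_mul_of_nonneg_right (le_max_right _ _) ?_)
      have := vs_pos p hr
      have := vs_pos p (hr.trans hrD)
      positivity

/-- Sum of the kernel. -/
theorem kern_gen {p : ℝ} (h1 : 0 ≤ p) (h2 : p ≤ 1) (h3 : p ≠ 1/2) {M : ℕ} {z : Edg}
    (hz : z ∈ boxE M) :
    ∑ y ∈ boxE M, psi (wt p) (2 * M) (dd y z) ≤ 400 * WW * |p - 1/2|⁻¹ := by
  have hW := WW_one
  have hp0 : 0 < |p - 1/2| := abs_pos.2 (sub_ne_zero.2 h3)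
  have hl := lam_nonneg p
  have hl1 := lam_le_one (q := p) h1 h2
  obtain ⟨l, hl'⟩ : ∃ l : ℝ, l = |p - 1/2| ^ (4/3 : ℝ) := ⟨_, rfl⟩
  rw [← hl'] at hl hl1
  have s1 : ∑ y ∈ boxE M, psi (wt p) (2 * M) (dd y z) ≤
      18 * ∑ b ∈ range (2 * M + 1), ((b:ℝ) + 1) * psi (wt p) (2 * M) b := by
    have h := sum_dist z (2 * M) (boxE M) (fun f hf => dd_box hz hf)
      (fun b => psi (wt p) (2 * M) b) (fun b => psi_nn p _ b)
    refine le_trans (le_of_eq ?_) h
    exact Finset.sum_congr rfl (fun y _ => by rw [dd_comm])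
  have s2 : ∀ b ∈ range (2 * M + 1), ((b:ℝ) + 1) * psi (wt p) (2 * M) b ≤
      2 * WW * (((b:ℝ) + 1) ^ (-(1/4) : ℝ) / (1 + l * ((b:ℝ) + 1))) := by
    intro b hb
    rw [Finset.mem_range] at hb
    have h3 := psi_le (q := p) h1 h2 (N := 2 * M) (s := b) (t := b + 1) (by omega)
      (by omega)
    rw [← hl'] at h3
    push_cast at h3
    have hb0 : (0:ℝ) < (b:ℝ) + 1 := by positivity
    have e : ((b:ℝ) + 1) * (((b:ℝ) + 1) ^ (-(5/4) : ℝ)) = ((b:ℝ) + 1) ^ (-(1/4) : ℝ) := by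
      nth_rewrite 1 [← Real.rpow_one ((b:ℝ) + 1)]
      rw [← Real.rpow_add hb0]
      norm_num
    calc ((b:ℝ) + 1) * psi (wt p) (2 * M) b ≤ ((b:ℝ) + 1) *
        (2 * WW * (((b:ℝ) + 1) ^ (-(5/4) : ℝ) / (1 + l * ((b:ℝ) + 1)))) :=
          mul_le_mul_of_nonneg_left h3 hb0.le
      _ = 2 * WW * ((((b:ℝ) + 1) * (((b:ℝ) + 1) ^ (-(5/4) : ℝ))) / (1 + l * ((b:ℝ) + 1))) := by
          ring
      _ = _ := by rw [e]
  have hlp : 0 < l := by rw [hl']; positivity
  have s3 := (sum1d hl hl1 (2 * M + 1)).2 hlp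
  have e1 : l ^ (3/4 : ℝ) = |p - 1/2| := by
    rw [hl', ← Real.rpow_mul (abs_nonneg _)]; norm_num
  rw [e1] at s3
  have s4 : ∑ b ∈ range (2 * M + 1), ((b:ℝ) + 1) * psi (wt p) (2 * M) b ≤
      2 * WW * (10 * |p - 1/2|⁻¹) := by
    refine (Finset.sum_le_sum s2).trans ?_
    rw [← Finset.mul_sum]
    exact mul_le_mul_of_nonneg_left s3 (by positivity)
  have hi : 0 < |p - 1/2|⁻¹ := by positivity
  calc ∑ y ∈ boxE M, psi (wt p) (2 * M) (dd y z) ≤ 18 * (2 * WW * (10 * |p - 1/2|⁻¹)) :=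
        s1.trans (mul_le_mul_of_nonneg_left s4 (by norm_num))
    _ ≤ _ := by nlinarith

/-- Sums over the sets, according to the part outside of `P`. -/
theorem sum_out {E : Type} [DecidableEq E] (V P : Finset E) (h : Finset E → ℝ)
    (h0 : ∀ A, 0 ≤ h A) :
    ∑ S ∈ V.powerset, h (S \ P) ≤ 2 ^ P.card * ∑ A ∈ (V \ P).powerset, h A := by
  have h1 : ∀ S ∈ V.powerset, S \ P ∈ (V \ P).powerset := by
    intro S hS
    rw [mem_powerset] at hS ⊢
    exact sdiff_subset_sdiff hS (Subset.refl _)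
  rw [← Finset.sum_fiberwise_of_maps_to h1, Finset.mul_sum]
  apply Finset.sum_le_sum
  intro A _
  have h2 : ∑ S ∈ V.powerset with S \ P = A, h (S \ P) = ∑ S ∈ V.powerset with S \ P = A, h A :=
    Finset.sum_congr rfl (fun S hS => by rw [(mem_filter.1 hS).2])
  rw [h2, Finset.sum_const, nsmul_eq_mul]
  apply mul_le_mul_of_nonneg_right _ (h0 A)
  have h3 : (V.powerset.filter (fun S => S \ P = A)) ⊆ P.powerset.image (fun B => A ∪ B) := by
    intro S hS
    rw [mem_filter] at hS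
    rw [mem_image]
    refine ⟨S ∩ P, mem_powerset.2 inter_subset_right, ?_⟩
    rw [← hS.2]
    exact sdiff_union_inter S P
  have h4 := (Finset.card_le_card h3).trans Finset.card_image_le
  rw [card_powerset] at h4
  exact_mod_cast h4

theorem fT_abs (L : ℕ) (x : Vtx) (F : Finset Edg) : |fT L x F| ≤ 1 := by
  unfold fT
  rw [abs_of_nonneg (ind_nonneg _)]
  exact ind_le_one _

theorem pow_four_le (n : ℕ) : ((n:ℝ) ^ 3) ^ 2 ≤ 64 ^ n := by
  have h1 : (n:ℝ) ≤ 2 ^ n := by exact_mod_cast Nat.lt_two_pow_self.le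
  have h2 : ((n:ℝ) ^ 3) ^ 2 = (n:ℝ) ^ 6 := by ring
  rw [h2]
  calc (n:ℝ) ^ 6 ≤ ((2:ℝ) ^ n) ^ 6 := pow_le_pow_left₀ (by positivity) h1 6
    _ = 64 ^ n := by rw [← pow_mul, mul_comm, pow_mul]; norm_num

/-- The sum over all the sets, for one point `x`. -/
theorem set_sum : ∃ B : ℝ, 1 ≤ B ∧ ∀ p : ℝ, 0 ≤ p → p < 1/2 → ∀ M L : ℕ, 1 ≤ M → 3 * M ≤ L →
    ∀ x : Vtx, ro x ∈ boxE M →
    ∑ S ∈ (boxE M).powerset, ((1/2 - p) / B) ^ S.card *
      |Ex (fun _ => p) (boxE L) (Dl (fT L x) S)| ≤ B * vs p (max 1 (dd oo (ro x))) ^ 2 := by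
  obtain ⟨C, hC, hk⟩ := kset
  have hW := WW_one
  have hW3 := W3_one
  obtain ⟨a, ha⟩ : ∃ a : ℝ, a = C * W3 ^ 2 := ⟨_, rfl⟩
  have ha1 : 1 ≤ a := by
    rw [ha]
    have : 1 ≤ W3 ^ 2 := by nlinarith
    nlinarith
  obtain ⟨K, hK⟩ : ∃ K : ℝ, K = 64 * a ^ 4 := ⟨_, rfl⟩
  have hK1 : 1 ≤ K := by
    rw [hK]
    have : 1 ≤ a ^ 4 := one_le_pow₀ ha1
    linarith
  obtain ⟨B, hB⟩ : ∃ B : ℝ, B = 2400 * WW * K + 36 * K ^ 2 := ⟨_, rfl⟩
  have hWK : 1 ≤ WW * K := by nlinarith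
  have hB1 : 1 ≤ B := by
    rw [hB]
    nlinarith [sq_nonneg K]
  refine ⟨B, hB1, ?_⟩
  intro p hp0 hp1 M L hM hL x hx
  have hp2 : p ≤ 1 := by linarith
  have ok := okq hp0 hp2
  have hs : 0 < 1/2 - p := by linarith
  have hsabs : |p - 1/2| = 1/2 - p := by rw [abs_of_neg (by linarith)]; ring
  have H := hk p hp0 hp1.le M L hM hL x hx
  obtain ⟨d, hd⟩ : ∃ d, d = dd oo (ro x) := ⟨_, rfl⟩
  have hdN : d ≤ 2 * M := by rw [hd]; exact dd_box (oo_mem hM) hx
  obtain ⟨v, hv⟩ : ∃ v : ℝ, v = vs p (max 1 d) := ⟨_, rfl⟩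
  have hv0 : 0 < v := by rw [hv]; exact vs_pos p (le_max_left _ _)
  rw [← hd, ← hv]
  obtain ⟨P, hP⟩ : ∃ P : Finset Edg, P = {oo, ro x} := ⟨_, rfl⟩
  have hPc : P.card ≤ 2 := by rw [hP]; exact Finset.card_le_two
  have hPM : P ⊆ boxE M := by
    rw [hP]
    intro e he
    rw [mem_insert, mem_singleton] at he
    rcases he with rfl | rfl
    · exact oo_mem hM
    · exact hx
  -- the kernel
  obtain ⟨kap, hkap⟩ : ∃ kap : Edg → Edg → ℝ, kap = fun y z => K * psi (wt p) (2 * M) (dd y z) :=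
    ⟨_, rfl⟩
  have hkap0 : ∀ y z, 0 ≤ kap y z := by
    intro y z
    rw [hkap]
    exact mul_nonneg (by linarith) (psi_nn p _ _)
  obtain ⟨n, hn⟩ : ∃ n, n = (boxE M).card := ⟨_, rfl⟩
  obtain ⟨FAA, hFA⟩ : ∃ g : Finset Edg → ℝ, g = fun A => Pool.Agent.Y21.NE.FA kap n P A :=
    ⟨_, rfl⟩
  have hFA0 : ∀ A, 0 ≤ FAA A := by
    intro A
    rw [hFA]
    exact Pool.Agent.Y21.NE.FA_nonneg kap hkap0 n P A
  -- KEY for one set
  have key : ∀ A ⊆ boxE M \ P, Pr (fun _ => p) (boxE L) (Dsr L x (A ∪ P)) ≤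
      K ^ 2 * v ^ 2 * FAA A := by
    intro A hA
    have hAM : A ⊆ boxE M := hA.trans sdiff_subset
    have hAP : Disjoint A P := by
      rw [Finset.disjoint_left]
      intro e he he'
      exact (mem_sdiff.1 (hA he)).2 he'
    have hTM : A ∪ P ⊆ boxE M := union_subset hAM hPM
    have hoT : oo ∈ A ∪ P := mem_union_right _ (by rw [hP]; exact mem_insert_self _ _)
    have hzT : ro x ∈ A ∪ P := mem_union_right _ (by
      rw [hP]; exact mem_insert_of_mem (mem_singleton_self _))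
    obtain ⟨m, hm⟩ : ∃ m, m = (A ∪ P).card := ⟨_, rfl⟩
    have hm1 : 1 ≤ m := by rw [hm]; exact Finset.card_pos.2 ⟨oo, hoT⟩
    have hmR : (1:ℝ) ≤ m := by exact_mod_cast hm1
    have hT0 : (0:ℝ) ≤ ((m:ℝ) ^ 3 * v) ^ 2 := sq_nonneg _
    have hbig : ∀ r : ℕ, 1 ≤ r → max 1 d ≤ m * r → vs p r ≤ (m:ℝ) ^ 3 * v := by
      intro r hr h
      rcases le_total r (max 1 d) with h1 | h1
      · rw [hv]
        exact vs_poly p hr h1 hm1 h
      · have h2 := vs_anti p (le_max_left 1 d) h1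
        rw [← hv] at h2
        have h3 : 1 ≤ (m:ℝ) ^ 3 := one_le_pow₀ hmR
        nlinarith
    obtain ⟨par, rk, t1, t2⟩ := key3 H (T0 := ((m:ℝ) ^ 3 * v) ^ 2) hT0 ha1 (le_of_eq ha.symm)
      (fun x hx y hy => dd_box hx hy) hTM hoT hzT (by
        intro h0
        rw [← hd] at h0
        have h1 := hbig 1 le_rfl (by rw [h0]; omega)
        rw [vs_one] at h1
        nlinarith) (by
        intro t ht
        rw [← hd, ← hm] at ht
        have h1 : psi (vs p) (2 * M) (t + 1) ≤ (m:ℝ) ^ 3 * v := by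
          unfold psi
          apply hbig _ (le_max_left _ _)
          rcases le_total (t + 1) (2 * M) with h2 | h2
          · rw [min_eq_left h2, max_eq_right (by omega : 1 ≤ t + 1)]
            apply max_le _ ht
            nlinarith
          · rw [min_eq_right h2, max_eq_right (by omega : 1 ≤ 2 * M)]
            apply max_le
            · nlinarith
            · nlinarith
        exact pow_le_pow_left₀ (by
          unfold psi
          exact (vs_pos p (le_max_left _ _)).le) h1 2)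
    have hSP : (A ∪ P) \ {oo, ro x} = A := by
      rw [← hP, union_sdiff_right]
      exact sdiff_eq_self_of_disjoint hAP
    rw [hSP] at t1 t2
    rw [← hm] at t2
    refine t2.trans ?_
    have f1 : ∏ y ∈ A, kap y (par y) ≤ FAA A := by
      rw [hFA]
      refine Pool.Agent.Y21.NE.FA_lower kap hkap0 n P A par rk ?_ hAP ?_
      · rw [hn]; exact Finset.card_le_card hAM
      · intro y hy
        obtain ⟨j1, j2⟩ := t1 y hy
        rcases mem_union.1 j1 with j1 | j1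
        · exact Or.inl ⟨j1, j2⟩
        · exact Or.inr j1
    have f2 : ∏ y ∈ A, kap y (par y) =
        K ^ A.card * ∏ y ∈ A, psi (wt p) (2 * M) (dd y (par y)) := by
      rw [hkap, Finset.prod_mul_distrib, Finset.prod_const]
    rw [f2] at f1
    obtain ⟨Q, hQ⟩ : ∃ Q : ℝ, Q = ∏ y ∈ A, psi (wt p) (2 * M) (dd y (par y)) := ⟨_, rfl⟩
    rw [← hQ] at f1 ⊢
    have hQ0 : 0 ≤ Q := by rw [hQ]; exact Finset.prod_nonneg fun y _ => psi_nn p _ _
    have f3 : ((m:ℝ) ^ 3) ^ 2 * a ^ (4 * m) ≤ K ^ m := by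
      rw [hK, mul_pow, pow_mul]
      exact mul_le_mul_of_nonneg_right (pow_four_le m) (by positivity)
    have f4 : m ≤ A.card + 2 := by
      rw [hm]
      exact (Finset.card_union_le _ _).trans (by omega)
    have f5 : K ^ m ≤ K ^ 2 * K ^ A.card := by
      rw [← pow_add, add_comm]
      exact pow_le_pow_right₀ hK1 f4
    calc ((m:ℝ) ^ 3 * v) ^ 2 * (a ^ (4 * m) * Q)
        = v ^ 2 * ((((m:ℝ) ^ 3) ^ 2 * a ^ (4 * m)) * Q) := by ring
      _ ≤ v ^ 2 * ((K ^ 2 * K ^ A.card) * Q) := by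
          apply mul_le_mul_of_nonneg_left _ (by positivity)
          exact mul_le_mul_of_nonneg_right (f3.trans f5) hQ0
      _ = K ^ 2 * v ^ 2 * (K ^ A.card * Q) := by ring
      _ ≤ K ^ 2 * v ^ 2 * FAA A := mul_le_mul_of_nonneg_left f1 (by positivity)
  -- the sum
  obtain ⟨Y, hY⟩ : ∃ Y : ℝ, Y = 2 * ((1/2 - p) / B) := ⟨_, rfl⟩
  have hY0 : 0 ≤ Y := by rw [hY]; positivity
  have hYB : Y ≤ (1/2 - p) * (1 / (1200 * WW * K)) := by
    rw [hY, ← mul_div_assoc, mul_comm 2 (1/2 - p), mul_div_assoc]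
    apply mul_le_mul_of_nonneg_left _ hs.le
    rw [div_le_div_iff₀ (by positivity) (by positivity), hB]
    nlinarith [sq_nonneg K]
  have hY1 : Y ≤ 1 := by
    refine hYB.trans ?_
    have : 1 / (1200 * WW * K) ≤ 1 := by
      rw [div_le_one (by positivity)]
      nlinarith
    nlinarith
  have hM3 : ∀ z ∈ boxE M, ∑ y ∈ boxE M, kap y z ≤ K * (400 * WW * (1/2 - p)⁻¹) := by
    intro z hz
    rw [hkap, ← Finset.mul_sum]
    apply mul_le_mul_of_nonneg_left _ (by linarith)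
    rw [← hsabs]
    exact kern_gen hp0 hp2 (by linarith) hz
  have h3 : 3 * (K * (400 * WW * (1/2 - p)⁻¹)) * Y ≤ 1 := by
    refine (mul_le_mul_of_nonneg_left hYB (by positivity)).trans (le_of_eq ?_)
    obtain ⟨s, hs'⟩ : ∃ s : ℝ, s = 1/2 - p := ⟨_, rfl⟩
    rw [← hs'] at hs ⊢
    field_simp
    norm_num
  have hup := Pool.Agent.Y21.NE.FA_upper (boxE M) kap (K * (400 * WW * (1/2 - p)⁻¹)) Y hkap0 hM3
    hY0 h3 n P (boxE M \ P) hPM sdiff_subset
  have hexp : Real.exp (P.card : ℝ) ≤ 9 := by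
    have h1 : (P.card : ℝ) ≤ 2 := by exact_mod_cast hPc
    have h2 : Real.exp (P.card : ℝ) ≤ Real.exp 2 := Real.exp_le_exp.2 h1
    have h3 : Real.exp 2 = Real.exp 1 ^ 2 := by rw [← Real.exp_nat_mul]; norm_num
    have h4 := Real.exp_one_lt_three
    have h5 := Real.exp_pos 1
    rw [h3] at h2
    nlinarith
  -- one term
  have h2 : ∀ S ∈ (boxE M).powerset, ((1/2 - p) / B) ^ S.card *
      |Ex (fun _ => p) (boxE L) (Dl (fT L x) S)| ≤
        Y ^ (S \ P).card * (K ^ 2 * v ^ 2 * FAA (S \ P)) := by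
    intro S hS
    rw [mem_powerset] at hS
    have k1 := Ex_Dl_le ok (V := boxE L) (fT_abs L x) S
    have k3 := Pr_nonneg ok (boxE L) (fun F => Dl (fT L x) S F ≠ 0)
    have k4 : Pr (fun _ => p) (boxE L) (fun F => Dl (fT L x) S F ≠ 0) ≤
        Pr (fun _ => p) (boxE L) (Dsr L x ((S \ P) ∪ P)) := by
      apply Pr_mono ok
      intro F _ hF
      refine ⟨S, ?_, ?_, hF⟩
      · rw [sdiff_union_self_eq_union]
        exact subset_union_left
      · intro e he
        rw [mem_sdiff, mem_union] at he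
        rcases he.1 with h | h
        · exact (mem_sdiff.1 h).1
        · rw [hP] at h
          exact absurd h he.2
    have k5 := key (S \ P) (sdiff_subset_sdiff hS (Subset.refl _))
    have k6 : Y ^ S.card ≤ Y ^ (S \ P).card :=
      pow_le_pow_of_le_one hY0 hY1 (Finset.card_le_card sdiff_subset)
    calc ((1/2 - p) / B) ^ S.card * |Ex (fun _ => p) (boxE L) (Dl (fT L x) S)|
        ≤ ((1/2 - p) / B) ^ S.card * (2 ^ S.card *
          Pr (fun _ => p) (boxE L) (fun F => Dl (fT L x) S F ≠ 0)) :=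
          mul_le_mul_of_nonneg_left k1 (by positivity)
      _ = Y ^ S.card * Pr (fun _ => p) (boxE L) (fun F => Dl (fT L x) S F ≠ 0) := by
          rw [hY, mul_pow]; ring
      _ ≤ Y ^ (S \ P).card * (K ^ 2 * v ^ 2 * FAA (S \ P)) :=
          mul_le_mul k6 (k4.trans k5) k3 (by positivity)
  refine (Finset.sum_le_sum h2).trans ?_
  have h5 := sum_out (boxE M) P (fun A => Y ^ A.card * (K ^ 2 * v ^ 2 * FAA A)) (fun A => by
    have := hFA0 A
    positivity)
  refine h5.trans ?_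
  have h6 : ∑ A ∈ (boxE M \ P).powerset, Y ^ A.card * (K ^ 2 * v ^ 2 * FAA A) ≤
      K ^ 2 * v ^ 2 * 9 := by
    have e : ∑ A ∈ (boxE M \ P).powerset, Y ^ A.card * (K ^ 2 * v ^ 2 * FAA A) =
        K ^ 2 * v ^ 2 * ∑ A ∈ (boxE M \ P).powerset, Y ^ A.card * FAA A := by
      rw [Finset.mul_sum]
      exact Finset.sum_congr rfl (fun A _ => by ring)
    rw [e]
    apply mul_le_mul_of_nonneg_left _ (by positivity)
    rw [hFA]
    exact hup.trans hexp
  have h7 : (2:ℝ) ^ P.card ≤ 4 := by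
    calc (2:ℝ) ^ P.card ≤ 2 ^ 2 := pow_le_pow_right₀ (by norm_num) hPc
      _ = 4 := by norm_num
  calc (2:ℝ) ^ P.card * ∑ A ∈ (boxE M \ P).powerset, Y ^ A.card * (K ^ 2 * v ^ 2 * FAA A)
      ≤ 4 * (K ^ 2 * v ^ 2 * 9) := by
        apply mul_le_mul h7 h6 _ (by norm_num)
        exact Finset.sum_nonneg fun A _ => by
          have := hFA0 A
          positivity
    _ = 36 * K ^ 2 * v ^ 2 := by ring
    _ ≤ B * v ^ 2 := by
        apply mul_le_mul_of_nonneg_right _ (by positivity)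
        rw [hB]
        nlinarith

end Pool.Agent.H29.TG
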