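import Pool.Agent.H29.TG.SetT

/-!
The sum over the points of a box.
-/

set_option autoImplicit false

namespace Pool.Agent.H29.TG

open H974 hiding WW
open H12S H389NS Finset
open Pool.Agent.NH39 (dd sum_dist)
open Pool.Agent.NH39.W (Dl wt WW WW_one wt_one wt_pos wt_anti wt_doub wt_ratio psi psi_le psi_nn
  sum1d lam_nonneg lam_le_one)
open Pool.Agent.H29.TH (oo ps dd_self dd_comm dd_tri ann_dd blk_sub_box congr_ann A4_local Cr
  pr_Cr Wf wf_wt mem_boxE_dd dd_box oo_mem eight_le_WW Ex_Dl_le tayU poly_bound)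

/-- The points of the box. -/
noncomputable def XB (m : ℕ) : Finset Vtx := Finset.Icc (-(m:ℤ)) m ×ˢ Finset.Icc (-(m:ℤ)) m

theorem mem_XB {m : ℕ} {x : Vtx} : x ∈ XB m ↔ (-(m:ℤ) ≤ x.1 ∧ x.1 ≤ m) ∧ (-(m:ℤ) ≤ x.2 ∧ x.2 ≤ m) := by
  unfold XB
  rw [Finset.mem_product, Finset.mem_Icc, Finset.mem_Icc]

theorem XB_mono {m n : ℕ} (h : m ≤ n) : XB m ⊆ XB n := by
  intro x hx
  rw [mem_XB] at hx ⊢
  omega

theorem XB_card (m : ℕ) : (XB m).card = (2 * m + 1) ^ 2 := by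
  unfold XB
  rw [Finset.card_product, Int.card_Icc, sq]
  congr 1 <;> omega

theorem ro_mem {m M : ℕ} (hM : m + 1 ≤ M) {x : Vtx} (hx : x ∈ XB m) : ro x ∈ boxE M := by
  rw [mem_XB] at hx
  unfold ro boxE
  rw [mem_RE_true]
  omega

theorem dd_ro {m : ℕ} {x : Vtx} (hx : x ∈ XB m) : dd oo (ro x) ≤ m := by
  rw [mem_XB] at hx
  unfold dd ro oo
  simp only
  omega

theorem ro_inj : Function.Injective ro := by
  intro x y h
  unfold ro at h
  rw [Prod.mk.injEq, Prod.mk.injEq] at h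
  exact Prod.ext h.1 h.2.1

theorem sum_x {p : ℝ} (h1 : 0 ≤ p) (h2 : p < 1/2) (m : ℕ) :
    ∑ x ∈ XB m, vs p (max 1 (dd oo (ro x))) ^ 2 ≤
      184320 * 10 * (1/2 - p) ^ (-(43/18) : ℝ) := by
  have hp1 : p ≤ 1 := by linarith
  have hs : 0 < 1/2 - p := by linarith
  have hsabs : |p - 1/2| = 1/2 - p := by rw [abs_of_neg (by linarith)]; ring
  have hl := lam_nonneg p
  have hl1 := lam_le_one (q := p) h1 hp1
  obtain ⟨l, hl'⟩ : ∃ l : ℝ, l = |p - 1/2| ^ (4/3 : ℝ) := ⟨_, rfl⟩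
  rw [← hl'] at hl hl1
  have hlp : 0 < l := by rw [hl', hsabs]; positivity
  have s1 : ∑ x ∈ XB m, vs p (max 1 (dd oo (ro x))) ^ 2 ≤
      18 * ∑ b ∈ range (m + 1), ((b:ℝ) + 1) * vs p (max 1 b) ^ 2 := by
    have h := sum_dist oo m ((XB m).image ro) (fun f hf => by
      obtain ⟨x, hx, rfl⟩ := Finset.mem_image.1 hf
      exact dd_ro hx) (fun b => vs p (max 1 b) ^ 2) (fun b => by positivity)
    rw [Finset.sum_image (fun x _ y _ h => ro_inj h)] at h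
    exact h
  have s2 : ∀ b ∈ range (m + 1), ((b:ℝ) + 1) * vs p (max 1 b) ^ 2 ≤
      1024 * l ^ (-(25/24) : ℝ) * (((b:ℝ) + 1) ^ (-(1/4) : ℝ) / (1 + l * ((b:ℝ) + 1))) := by
    intro b _
    have g1 := vs_poly p (r := max 1 b) (s := b + 1) (M := 2) (le_max_left _ _)
      (by omega) (by norm_num) (by omega)
    have g2 := vs_pos p (r := max 1 b) (le_max_left _ _)
    obtain ⟨n, hn⟩ : ∃ n : ℝ, n = (b:ℝ) + 1 := ⟨_, rfl⟩
    have hn0 : 0 < n := by rw [hn]; positivity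
    have g3 : vs p (b + 1) = n ^ (-(5/48) : ℝ) * ((1 + l) / (1 + l * n)) ^ 2 := by
      unfold vs
      rw [← hl']
      push_cast
      rw [← hn]
    have hD : 0 < 1 + l * n := by positivity
    have g4 : vs p (b + 1) ≤ n ^ (-(5/48) : ℝ) * (4 / (1 + l * n) ^ 2) := by
      rw [g3]
      apply mul_le_mul_of_nonneg_left _ (by positivity)
      rw [div_pow]
      apply div_le_div_of_nonneg_right _ (by positivity)
      nlinarith
    have g5 : vs p (max 1 b) ≤ 8 * (n ^ (-(5/48) : ℝ) * (4 / (1 + l * n) ^ 2)) := by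
      refine g1.trans ?_
      norm_num
      linarith
    have g6 : vs p (max 1 b) ^ 2 ≤ (8 * (n ^ (-(5/48) : ℝ) * (4 / (1 + l * n) ^ 2))) ^ 2 :=
      pow_le_pow_left₀ g2.le g5 2
    rw [← hn]
    have g7 : (8 * (n ^ (-(5/48) : ℝ) * (4 / (1 + l * n) ^ 2))) ^ 2 =
        1024 * (n ^ (-(5/24) : ℝ) * (1 / (1 + l * n) ^ 4)) := by
      have e : n ^ (-(5/48) : ℝ) * n ^ (-(5/48) : ℝ) = n ^ (-(5/24) : ℝ) := by
        rw [← Real.rpow_add hn0]
        norm_num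
      rw [← e]
      obtain ⟨D, hD⟩ : ∃ D : ℝ, D = 1 + l * n := ⟨_, rfl⟩
      rw [← hD]
      obtain ⟨z, hz⟩ : ∃ z : ℝ, z = n ^ (-(5/48) : ℝ) := ⟨_, rfl⟩
      rw [← hz, div_eq_mul_inv, one_div, show (D ^ 4)⁻¹ = (D ^ 2)⁻¹ * (D ^ 2)⁻¹ by
        rw [← mul_inv]; ring_nf]
      ring
    have g8 : n * n ^ (-(5/24) : ℝ) = n ^ (-(1/4) : ℝ) * n ^ (25/24 : ℝ) := by
      nth_rewrite 1 [← Real.rpow_one n]
      rw [← Real.rpow_add hn0, ← Real.rpow_add hn0]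
      norm_num
    have g9 : n ^ (25/24 : ℝ) ≤ l ^ (-(25/24) : ℝ) * (1 + l * n) ^ 3 := by
      have e1 : (l * n) ^ (25/24 : ℝ) ≤ (1 + l * n) ^ (3:ℝ) := by
        calc (l * n) ^ (25/24 : ℝ) ≤ (1 + l * n) ^ (25/24 : ℝ) :=
              Real.rpow_le_rpow (by positivity) (by linarith) (by norm_num)
          _ ≤ (1 + l * n) ^ (3:ℝ) := Real.rpow_le_rpow_of_exponent_le (by
              have : 0 < l * n := by positivity
              linarith) (by norm_num)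
      have e2 : (1 + l * n) ^ (3:ℝ) = (1 + l * n) ^ 3 := by
        rw [← Real.rpow_natCast]; norm_num
      rw [e2, Real.mul_rpow hl hn0.le] at e1
      have e3 : l ^ (-(25/24) : ℝ) * l ^ (25/24 : ℝ) = 1 := by
        rw [← Real.rpow_add hlp]; norm_num
      calc n ^ (25/24 : ℝ) = l ^ (-(25/24) : ℝ) * (l ^ (25/24 : ℝ) * n ^ (25/24 : ℝ)) := by
            rw [← mul_assoc, e3, one_mul]
        _ ≤ _ := mul_le_mul_of_nonneg_left e1 (by positivity)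
    calc n * vs p (max 1 b) ^ 2 ≤ n * (1024 * (n ^ (-(5/24) : ℝ) * (1 / (1 + l * n) ^ 4))) := by
          rw [← g7]
          exact mul_le_mul_of_nonneg_left g6 hn0.le
      _ = 1024 * ((n * n ^ (-(5/24) : ℝ)) * (1 / (1 + l * n) ^ 4)) := by ring
      _ = 1024 * ((n ^ (-(1/4) : ℝ) * n ^ (25/24 : ℝ)) * (1 / (1 + l * n) ^ 4)) := by rw [g8]
      _ ≤ 1024 * ((n ^ (-(1/4) : ℝ) * (l ^ (-(25/24) : ℝ) * (1 + l * n) ^ 3)) *
          (1 / (1 + l * n) ^ 4)) := by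
          apply mul_le_mul_of_nonneg_left _ (by norm_num)
          apply mul_le_mul_of_nonneg_right _ (by positivity)
          exact mul_le_mul_of_nonneg_left g9 (by positivity)
      _ = _ := by
          field_simp
  have s3 := (sum1d hl hl1 (m + 1)).2 hlp
  have hlr : 0 < l ^ (-(25/24) : ℝ) := by positivity
  have s4 : ∑ b ∈ range (m + 1), ((b:ℝ) + 1) * vs p (max 1 b) ^ 2 ≤
      1024 * l ^ (-(25/24) : ℝ) * (10 * (l ^ (3/4 : ℝ))⁻¹) := by
    refine (Finset.sum_le_sum s2).trans ?_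
    rw [← Finset.mul_sum]
    exact mul_le_mul_of_nonneg_left s3 (by positivity)
  have e1 : l ^ (-(25/24) : ℝ) * (l ^ (3/4 : ℝ))⁻¹ = (1/2 - p) ^ (-(43/18) : ℝ) := by
    rw [← Real.rpow_neg hl, ← Real.rpow_add hlp, hl', hsabs, ← Real.rpow_mul hs.le]
    norm_num
  calc ∑ x ∈ XB m, vs p (max 1 (dd oo (ro x))) ^ 2 ≤
      18 * (1024 * l ^ (-(25/24) : ℝ) * (10 * (l ^ (3/4 : ℝ))⁻¹)) :=
        s1.trans (mul_le_mul_of_nonneg_left s4 (by norm_num))
    _ = 184320 * (l ^ (-(25/24) : ℝ) * (l ^ (3/4 : ℝ))⁻¹) := by ring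
    _ ≤ _ := by
        rw [e1]
        have : 0 < (1/2 - p) ^ (-(43/18) : ℝ) := by positivity
        nlinarith

/-- The mixture. -/
noncomputable def gT (p : ℝ) (m M L : ℕ) (y : ℝ) : ℝ :=
  ∑ G ∈ (boxE M).powerset, (y - p) ^ G.card *
    ∑ x ∈ XB m, Ex (fun _ => p) (boxE L) (Dl (fT L x) G)

theorem gT_eq {p y : ℝ} {m M L : ℕ} (h : M ≤ L) :
    gT p m M L y =
      ∑ x ∈ XB m, Ex (fun e => if e ∈ boxE M then p + (y - p) else p) (boxE L) (fT L x) := by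
  unfold gT
  have : ∀ x ∈ XB m, Ex (fun e => if e ∈ boxE M then p + (y - p) else p) (boxE L) (fT L x) =
      ∑ G ∈ (boxE M).powerset, (y - p) ^ G.card * Ex (fun _ => p) (boxE L) (Dl (fT L x) G) := by
    intro x _
    rw [tayU (boxE_mono h)]
  rw [Finset.sum_congr rfl this, Finset.sum_comm]
  exact Finset.sum_congr rfl (fun G _ => by rw [Finset.mul_sum])

/-- The sum of the coefficients. -/
theorem mixT : ∃ B : ℝ, 1 ≤ B ∧ ∀ p : ℝ, 0 ≤ p → p < 1/2 → ∀ m M L : ℕ, m + 1 ≤ M → 3 * M ≤ L →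
    ∑ S ∈ (boxE M).powerset, ((1/2 - p) / B) ^ S.card *
      |∑ x ∈ XB m, Ex (fun _ => p) (boxE L) (Dl (fT L x) S)| ≤
        B * (1/2 - p) ^ (-(43/18) : ℝ) := by
  obtain ⟨B0, hB0, ht⟩ := set_sum
  refine ⟨1843200 * B0, by linarith, ?_⟩
  intro p hp0 hp1 m M L hM hL
  have hs : 0 < 1/2 - p := by linarith
  have h1 : ∀ S ∈ (boxE M).powerset, ((1/2 - p) / (1843200 * B0)) ^ S.card *
      |∑ x ∈ XB m, Ex (fun _ => p) (boxE L) (Dl (fT L x) S)| ≤
      ∑ x ∈ XB m, ((1/2 - p) / B0) ^ S.card * |Ex (fun _ => p) (boxE L) (Dl (fT L x) S)| := by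
    intro S _
    rw [← Finset.mul_sum]
    apply mul_le_mul _ (Finset.abs_sum_le_sum_abs _ _) (abs_nonneg _) (by positivity)
    apply pow_le_pow_left₀ (by positivity)
    apply div_le_div_of_nonneg_left hs.le (by linarith)
    linarith
  refine (Finset.sum_le_sum h1).trans ?_
  rw [Finset.sum_comm]
  have h2 : ∀ x ∈ XB m, ∑ S ∈ (boxE M).powerset,
      ((1/2 - p) / B0) ^ S.card * |Ex (fun _ => p) (boxE L) (Dl (fT L x) S)| ≤
      B0 * vs p (max 1 (dd oo (ro x))) ^ 2 :=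
    fun x hx => ht p hp0 hp1 M L (by omega) hL x (ro_mem hM hx)
  refine (Finset.sum_le_sum h2).trans ?_
  rw [← Finset.mul_sum]
  refine (mul_le_mul_of_nonneg_left (sum_x hp0 hp1 m) (by linarith)).trans (le_of_eq ?_)
  ring

end Pool.Agent.H29.TG
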