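import Pool.Agent.H29.TH.Win

/-!
A function on `(a, a + 1/2)` of order `(x - a) ^ β`, `β < 0`, whose derivatives of order `k` are
bounded by multiples of `(x - a) ^ (β - k)`: in every window `(a + s, a + Λ s)` there is a point
where the derivative of order `k` has this order and the sign of the derivative of the power.
-/

set_option autoImplicit false

namespace Pool.Agent.H29.WinN

open Set Filter Topology
open Pool.Agent.H29.Win
open scoped ContDiff

theorem bb_signN {β : ℝ} (h0 : β < 0) (k : ℕ) : 0 < (-1) ^ k * bb β k := by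
  induction k with
  | zero => simp [bb]
  | succ k ih =>
    have e : (-1 : ℝ) ^ (k + 1) * bb β (k + 1) =
        ((k:ℝ) - β) * ((-1) ^ k * bb β k) := by
      rw [bb.eq_2 β k, pow_succ]
      ring
    rw [e]
    apply mul_pos _ ih
    have : (0:ℝ) ≤ k := Nat.cast_nonneg k
    linarith

/-- The theorem. -/
theorem window {f : ℝ → ℝ} {a β c : ℝ} {D : ℕ → ℝ} (h0 : β < 0) (hc : 0 < c)
    (hs : ∀ x : ℝ, 0 < x → x < 1/2 → ContDiffAt ℝ ∞ f (a + x))
    (hD : ∀ k : ℕ, ∀ x : ℝ, 0 < x → x < 1/2 → |iteratedDeriv k f (a + x)| ≤ D k * x ^ (β - k))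
    (hl : ∀ x : ℝ, 0 < x → x < 1/2 → c * x ^ β ≤ f (a + x)) (k : ℕ) :
    ∃ c' Λ : ℝ, 0 < c' ∧ 1 < Λ ∧ ∀ s : ℝ, 0 < s → Λ * s < 1/2 → ∃ x : ℝ, s < x ∧ x < Λ * s ∧
      c' * x ^ (β - k) ≤ (-1) ^ k * iteratedDeriv k f (a + x) := by
  have hb := bb_signN h0 k
  obtain ⟨b, hb'⟩ : ∃ b : ℝ, b = (-1) ^ k * bb β k := ⟨_, rfl⟩
  rw [← hb'] at hb
  obtain ⟨Q, hQ⟩ : ∃ Q : ℝ, Q = |QQ β D k| + 1 := ⟨_, rfl⟩
  have hQ0 : 0 < Q := by rw [hQ]; positivity
  have hQ1 : QQ β D k ≤ Q := by rw [hQ]; linarith [le_abs_self (QQ β D k)]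
  obtain ⟨l, hl'⟩ : ∃ l : ℝ, l = 4 * Q / (c * b) := ⟨_, rfl⟩
  have hl0 : 0 < l := by rw [hl']; positivity
  refine ⟨c * b / 2, Real.exp l, by positivity, Real.one_lt_exp_iff.2 hl0, ?_⟩
  intro s s0 s1
  have hls : Real.exp (Real.log s) = s := Real.exp_log s0
  -- the points of the window
  have hpt : ∀ u ∈ Icc (Real.log s) (Real.log s + l), 0 < Real.exp u ∧ Real.exp u < 1/2 := by
    intro u hu
    refine ⟨Real.exp_pos u, lt_of_le_of_lt (Real.exp_le_exp.2 hu.2) ?_⟩
    rw [Real.exp_add, hls, mul_comm]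
    exact s1
  have hFb : ∀ u ∈ Icc (Real.log s) (Real.log s + l), ∀ k, |FF f a β k u| ≤ D k := by
    intro u hu k
    obtain ⟨x0, x1⟩ := hpt u hu
    have h2 := hD k _ x0 x1
    unfold FF
    rw [abs_mul, abs_of_pos (Real.exp_pos _)]
    have e1 : Real.exp u ^ (β - k) = Real.exp ((β - k) * u) := by
      rw [← Real.exp_mul, mul_comm]
    rw [e1] at h2
    refine (mul_le_mul_of_nonneg_left h2 (Real.exp_pos _).le).trans (le_of_eq ?_)
    rw [mul_left_comm, ← Real.exp_add]
    have : ((k:ℝ) - β) * u + (β - k) * u = 0 := by ring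
    rw [this, Real.exp_zero, mul_one]
  have hlt : Real.log s < Real.log s + l := by linarith
  have hcd : ∀ u ∈ Icc (Real.log s) (Real.log s + l), ContDiffAt ℝ ∞ f (a + Real.exp u) :=
    fun u hu => hs _ (hpt u hu).1 (hpt u hu).2
  obtain ⟨v, hv, hsl⟩ := exists_hasDerivAt_eq_slope (PP f a β k)
    (fun u => FF f a β k u - bb β k * FF f a β 0 u) hlt
    (fun u hu => (PP_deriv (hcd u hu) k).continuousAt.continuousWithinAt)
    (fun u hu => PP_deriv (hcd u (Ioo_subset_Icc_self hu)) k)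
  have hvI := Ioo_subset_Icc_self hv
  obtain ⟨x0, x1⟩ := hpt v hvI
  refine ⟨Real.exp v, ?_, ?_, ?_⟩
  · rw [← hls]; exact Real.exp_lt_exp.2 hv.1
  · rw [← hls, ← Real.exp_add, Real.exp_lt_exp]
    linarith [hv.2]
  · have b1 := PP_bound (hFb _ (left_mem_Icc.2 hlt.le)) k
    have b2 := PP_bound (hFb _ (right_mem_Icc.2 hlt.le)) k
    have e1 : Real.log s + l - Real.log s = l := by ring
    rw [e1] at hsl
    have hsl2 : |FF f a β k v - bb β k * FF f a β 0 v| ≤ c * b / 2 := by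
      rw [hsl, abs_div, abs_of_pos hl0, div_le_iff₀ hl0]
      have e2 : c * b / 2 * l = 2 * Q := by rw [hl']; field_simp; norm_num
      rw [e2]
      refine (abs_sub _ _).trans ?_
      linarith
    have hF0 : c ≤ FF f a β 0 v := by
      have h2 := hl _ x0 x1
      unfold FF
      rw [iteratedDeriv_zero]
      have e3 : Real.exp v ^ β = Real.exp (β * v) := by
        rw [← Real.exp_mul, mul_comm]
      rw [e3] at h2
      have h3 := mul_le_mul_of_nonneg_left h2 (Real.exp_pos ((((0:ℕ):ℝ) - β) * v)).le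
      refine le_trans (le_of_eq ?_) h3
      rw [mul_left_comm, ← Real.exp_add]
      have : (((0:ℕ):ℝ) - β) * v + β * v = 0 := by push_cast; ring
      rw [this, Real.exp_zero, mul_one]
    have hmain : c * b / 2 ≤ (-1) ^ k * FF f a β k v := by
      have t1 : (-1) ^ k * FF f a β k v =
          (-1) ^ k * (FF f a β k v - bb β k * FF f a β 0 v) + b * FF f a β 0 v := by
        rw [hb']; ring
      have t2 : |(-1) ^ k * (FF f a β k v - bb β k * FF f a β 0 v)| ≤ c * b / 2 := by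
        rw [abs_mul, abs_pow, abs_neg, abs_one, one_pow, one_mul]
        exact hsl2
      have t3 := (abs_le.1 t2).1
      have t4 := mul_le_mul_of_nonneg_left hF0 hb.le
      rw [t1]
      linarith
    have e4 : Real.exp v ^ (β - (k:ℝ)) = Real.exp ((β - (k:ℝ)) * v) := by
      rw [← Real.exp_mul, mul_comm]
    rw [e4]
    have h5 := mul_le_mul_of_nonneg_right hmain (Real.exp_pos ((β - (k:ℝ)) * v)).le
    refine h5.trans (le_of_eq ?_)
    unfold FF
    have e5 : Real.exp (((k:ℝ) - β) * v) * Real.exp ((β - (k:ℝ)) * v) = 1 := by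
      rw [← Real.exp_add]
      have : ((k:ℝ) - β) * v + (β - (k:ℝ)) * v = 0 := by ring
      rw [this, Real.exp_zero]
    calc (-1) ^ k * (Real.exp (((k:ℝ) - β) * v) * iteratedDeriv k f
          (a + Real.exp v)) * Real.exp ((β - (k:ℝ)) * v)
        = (-1) ^ k * iteratedDeriv k f (a + Real.exp v) *
          (Real.exp (((k:ℝ) - β) * v) * Real.exp ((β - (k:ℝ)) * v)) := by ring
      _ = _ := by rw [e5, mul_one]

end Pool.Agent.H29.WinN
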